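import Mathlib

/-! Cubic forms and vectors of polynomials: basic facts. -/

set_option autoImplicit false

namespace Run7.h151

open MvPolynomial

section tensor

variable {n : ℕ} {R : Type*} [CommRing R]

theorem split_one (m : Fin n →₀ ℕ) (d : ℕ) (h : m.degree = d + 1) :
    ∃ (i : Fin n) (m' : Fin n →₀ ℕ), m = Finsupp.single i 1 + m' ∧ m'.degree = d := by
  have h0 : m ≠ 0 := by
    rintro rfl
    rw [map_zero] at h
    omega
  obtain ⟨i, hi⟩ := Finsupp.ne_iff.1 h0
  have hi' : m i ≠ 0 := hi
  have hle : Finsupp.single i 1 ≤ m := Finsupp.single_le_iff.2 (Nat.one_le_iff_ne_zero.2 hi')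
  have e := add_tsub_cancel_of_le hle
  refine ⟨i, m - Finsupp.single i 1, e.symm, ?_⟩
  have h1 := congrArg Finsupp.degree e
  rw [map_add, Finsupp.degree_single, h] at h1
  omega

/-- a monomial of degree three -/
theorem exists_triple (m : Fin n →₀ ℕ) (h : m.degree = 3) :
    ∃ i j k : Fin n, m = Finsupp.single i 1 + Finsupp.single j 1 + Finsupp.single k 1 := by
  obtain ⟨i, m1, e1, h1⟩ := split_one m 2 h
  obtain ⟨j, m2, e2, h2⟩ := split_one m1 1 h1
  obtain ⟨k, m3, e3, h3⟩ := split_one m2 0 h2
  have h4 : m3 = 0 := (Finsupp.degree_eq_zero_iff m3).1 h3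
  refine ⟨i, j, k, ?_⟩
  rw [e1, e2, e3, h4, add_zero, add_assoc]

/-- the polynomial is given by a tensor -/
def IsTensor (f : MvPolynomial (Fin n) R) : Prop :=
  ∃ t : Fin n → Fin n → Fin n → R, f = ∑ i, ∑ j, ∑ k, C (t i j k) * X i * X j * X k

theorem IsTensor.zero : IsTensor (0 : MvPolynomial (Fin n) R) :=
  ⟨fun _ _ _ => 0, by simp⟩

theorem IsTensor.add {f g : MvPolynomial (Fin n) R} (hf : IsTensor f) (hg : IsTensor g) :
    IsTensor (f + g) := by
  obtain ⟨t, ht⟩ := hf
  obtain ⟨s, hs⟩ := hg
  refine ⟨fun i j k => t i j k + s i j k, ?_⟩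
  rw [ht, hs]
  simp only [map_add, add_mul, Finset.sum_add_distrib]

theorem IsTensor.mono (i j k : Fin n) (a : R) :
    IsTensor (C a * X i * X j * X k : MvPolynomial (Fin n) R) := by
  classical
  refine ⟨fun i' j' k' => if i' = i then if j' = j then if k' = k then a else 0 else 0 else 0, ?_⟩
  rw [Finset.sum_eq_single i, Finset.sum_eq_single j, Finset.sum_eq_single k]
  · simp only [if_true]
  · intro k' _ hk
    simp only [if_true, if_neg hk, map_zero, zero_mul]
  · intro h
    exact absurd (Finset.mem_univ _) h
  · intro j' _ hj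
    refine Finset.sum_eq_zero fun k' _ => ?_
    simp only [if_true, if_neg hj, map_zero, zero_mul]
  · intro h
    exact absurd (Finset.mem_univ _) h
  · intro i' _ hi
    refine Finset.sum_eq_zero fun j' _ => Finset.sum_eq_zero fun k' _ => ?_
    simp only [if_neg hi, map_zero, zero_mul]
  · intro h
    exact absurd (Finset.mem_univ _) h

theorem isTensor {f : MvPolynomial (Fin n) R} (hf : f.IsHomogeneous 3) : IsTensor f := by
  rw [← MvPolynomial.support_sum_monomial_coeff f]
  refine Finset.sum_induction _ IsTensor (fun _ _ => IsTensor.add) IsTensor.zero ?_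
  intro m hm
  have hd : m.degree = 3 := by
    by_contra hne
    exact (MvPolynomial.mem_support_iff.1 hm) (hf.coeff_eq_zero hne)
  obtain ⟨i, j, k, e4⟩ := exists_triple m hd
  have e : MvPolynomial.monomial m (MvPolynomial.coeff m f) =
      C (MvPolynomial.coeff m f) * X i * X j * X k := by
    generalize MvPolynomial.coeff m f = a
    rw [e4]
    unfold MvPolynomial.X
    rw [MvPolynomial.C_apply, MvPolynomial.monomial_mul, MvPolynomial.monomial_mul,
      MvPolynomial.monomial_mul, mul_one, mul_one, mul_one, zero_add]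
  rw [e]
  exact IsTensor.mono i j k _

end tensor

section poly

variable {n : ℕ} {k : Type*} [Field k]

/-- The value of a cubic form at a vector of polynomials of degree at most `e`. -/
theorem coeff_top {F : MvPolynomial (Fin n) k} (hF : F.IsHomogeneous 3) (h : Fin n → Polynomial k)
    (e : ℕ) (he : ∀ i, (h i).natDegree ≤ e) :
    (aeval h F).natDegree ≤ 3 * e ∧
      (aeval h F).coeff (3 * e) = eval (fun i => (h i).coeff e) F := by
  obtain ⟨t, ht⟩ := isTensor hF
  have e1 : aeval h F = ∑ i, ∑ j, ∑ l, Polynomial.C (t i j l) * h i * h j * h l := by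
    rw [ht]
    simp only [map_sum, map_mul, aeval_X, MvPolynomial.algHom_C, Polynomial.algebraMap_eq]
  have e2 : eval (fun i => (h i).coeff e) F =
      ∑ i, ∑ j, ∑ l, t i j l * (h i).coeff e * (h j).coeff e * (h l).coeff e := by
    conv_lhs => rw [ht]
    simp only [map_sum, map_mul, eval_X, eval_C]
  have d1 : ∀ i : Fin n × Fin n × Fin n,
      (Polynomial.C (t i.1 i.2.1 i.2.2) * h i.1).natDegree ≤ e := fun i =>
    (Polynomial.natDegree_C_mul_le _ _).trans (he _)
  have d2 : ∀ i : Fin n × Fin n × Fin n,
      (Polynomial.C (t i.1 i.2.1 i.2.2) * h i.1 * h i.2.1).natDegree ≤ e + e := fun i =>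
    Polynomial.natDegree_mul_le_of_le (d1 i) (he _)
  have d3 : ∀ i : Fin n × Fin n × Fin n,
      (Polynomial.C (t i.1 i.2.1 i.2.2) * h i.1 * h i.2.1 * h i.2.2).natDegree ≤ e + e + e :=
    fun i => Polynomial.natDegree_mul_le_of_le (d2 i) (he _)
  constructor
  · rw [e1]
    refine Polynomial.natDegree_sum_le_of_forall_le _ _ fun i _ => ?_
    refine Polynomial.natDegree_sum_le_of_forall_le _ _ fun j _ => ?_
    refine Polynomial.natDegree_sum_le_of_forall_le _ _ fun l _ => ?_
    have := d3 (i, j, l)
    simp only at this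
    omega
  · rw [e1, e2]
    simp only [Polynomial.finsetSum_coeff]
    refine Finset.sum_congr rfl fun i _ => Finset.sum_congr rfl fun j _ =>
      Finset.sum_congr rfl fun l _ => ?_
    have h3 : 3 * e = e + e + e := by ring
    rw [h3, Polynomial.coeff_mul_add_eq_of_natDegree_le (d2 (i, j, l)) (he _),
      Polynomial.coeff_mul_add_eq_of_natDegree_le (d1 (i, j, l)) (he _),
      Polynomial.coeff_C_mul]

/-- A cubic form at a multiple of a vector. -/
theorem aeval_mul {A : Type*} [CommRing A] [Algebra k A] {F : MvPolynomial (Fin n) k}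
    (hF : F.IsHomogeneous 3) (c : A) (y : Fin n → A) :
    aeval (fun i => c * y i) F = c ^ 3 * aeval y F := by
  obtain ⟨t, ht⟩ := isTensor hF
  rw [ht]
  simp only [map_sum, map_mul, aeval_X, MvPolynomial.algHom_C, Finset.mul_sum]
  refine Finset.sum_congr rfl fun i _ => Finset.sum_congr rfl fun j _ =>
    Finset.sum_congr rfl fun l _ => ?_
  ring

/-- The value depends only on the class modulo `μ`. -/
theorem dvd_sub {A : Type*} [CommRing A] [Algebra k A] (F : MvPolynomial (Fin n) k) (μ : A)
    (y z : Fin n → A) (h : ∀ i, μ ∣ y i - z i) : μ ∣ aeval y F - aeval z F := by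
  rw [← Ideal.mem_span_singleton, ← Ideal.Quotient.mk_eq_mk_iff_sub_mem]
  have h1 : ∀ w : Fin n → A, Ideal.Quotient.mk (Ideal.span {μ}) (aeval w F) =
      aeval (fun i => Ideal.Quotient.mk (Ideal.span {μ}) (w i)) F := by
    intro w
    have := MvPolynomial.comp_aeval_apply (R := k) w (Ideal.Quotient.mkₐ k (Ideal.span {μ})) F
    exact this
  rw [h1, h1]
  congr 1
  congr 1
  funext i
  rw [Ideal.Quotient.mk_eq_mk_iff_sub_mem, Ideal.mem_span_singleton]
  exact h i

theorem aeval_C {F : MvPolynomial (Fin n) k} (y : Fin n → k) :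
    aeval (fun i => Polynomial.C (y i)) F = Polynomial.C (eval y F) := by
  have := MvPolynomial.comp_aeval_apply (R := k) y (Polynomial.CAlgHom (R := k) (A := k)) F
  simp only [Polynomial.CAlgHom_apply] at this
  rw [← this, MvPolynomial.aeval_eq_eval]

theorem eval_aeval {F : MvPolynomial (Fin n) k} (h : Fin n → Polynomial k) (s : k) :
    (aeval h F).eval s = eval (fun i => (h i).eval s) F := by
  have := MvPolynomial.comp_aeval_apply (R := k) h (Polynomial.aeval (R := k) s) F
  rw [Polynomial.coe_aeval_eq_eval] at this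
  rw [this, MvPolynomial.aeval_eq_eval]

/-- A zero in an extension of degree at most two gives a rational zero. -/
theorem zero_of_quadratic {F : MvPolynomial (Fin n) k} (hF : F.IsHomogeneous 3)
    (h : Fin n → Polynomial k) (μ : Polynomial k) (hμ : Irreducible μ) (hd : μ.natDegree ≤ 2)
    (h0 : ¬ ∀ i, μ ∣ h i) (hz : μ ∣ aeval h F) : ∃ x : Fin n → k, x ≠ 0 ∧ eval x F = 0 := by
  classical
  have hμ0 : μ ≠ 0 := hμ.ne_zero
  have hd1 : 1 ≤ μ.natDegree := by
    rcases Nat.eq_zero_or_pos μ.natDegree with h1 | h1
    · exfalso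
      exact hμ.not_isUnit (Polynomial.isUnit_iff_degree_eq_zero.2
        (by rw [Polynomial.degree_eq_natDegree hμ0, h1]; rfl))
    · exact h1
  -- reduce modulo `μ`
  let r : Fin n → Polynomial k := fun i => h i % μ
  have hr : ∀ i, μ ∣ h i - r i := fun i => by
    have := EuclideanDomain.div_add_mod (h i) μ
    refine ⟨h i / μ, ?_⟩
    rw [sub_eq_iff_eq_add]
    exact this.symm
  have hrd : ∀ i, (r i).natDegree ≤ 1 := fun i => by
    have : (r i).natDegree < μ.natDegree := Polynomial.natDegree_mod_lt _ (by omega)
    omega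
  have hrz : μ ∣ aeval r F := by
    have h1 := dvd_sub (k := k) F μ h r hr
    exact (dvd_sub_right hz).1 h1
  have hr0 : ∃ i, r i ≠ 0 := by
    by_contra hne
    push Not at hne
    exact h0 fun i => by
      have := hr i
      rwa [hne i, sub_zero] at this
  -- coordinates
  let a : Fin n → k := fun i => (r i).coeff 0
  let b : Fin n → k := fun i => (r i).coeff 1
  have hab : ∀ i, r i = Polynomial.C (b i) * Polynomial.X + Polynomial.C (a i) := fun i =>
    Polynomial.eq_X_add_C_of_natDegree_le_one (hrd i)
  obtain ⟨ht1, ht2⟩ := coeff_top hF r 1 hrd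
  rw [mul_one] at ht1 ht2
  by_cases hb : b = 0
  · -- constant vector
    have hra : r = fun i => Polynomial.C (a i) := by
      funext i
      rw [hab i, congrFun hb i]
      simp
    rw [hra, aeval_C] at hrz
    refine ⟨a, ?_, ?_⟩
    · intro ha
      obtain ⟨i, hi⟩ := hr0
      apply hi
      rw [hra]
      simp [ha]
    · by_contra hne
      have h1 : IsUnit (Polynomial.C (eval a F)) := Polynomial.isUnit_C.2 (IsUnit.mk0 _ hne)
      exact hμ.not_isUnit (isUnit_of_dvd_unit hrz h1)
  · by_cases hFb : eval b F = 0
    · exact ⟨b, hb, hFb⟩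
    · -- the value has degree three
      have hc3 : (aeval r F).coeff 3 ≠ 0 := by
        rw [ht2]
        exact hFb
      have hdeg : (aeval r F).natDegree = 3 :=
        le_antisymm ht1 (Polynomial.le_natDegree_of_ne_zero hc3)
      have hne0 : aeval r F ≠ 0 := by
        intro h1
        rw [h1] at hc3
        exact hc3 (Polynomial.coeff_zero 3)
      -- the degree of `μ` is two
      have hd2 : μ.natDegree = 2 := by
        by_contra hne
        have hd11 : μ.natDegree = 1 := by omega
        apply hb
        funext i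
        have h1 : (r i).natDegree < μ.natDegree := Polynomial.natDegree_mod_lt _ (by omega)
        exact Polynomial.coeff_eq_zero_of_natDegree_lt (by omega)
      obtain ⟨q, hq⟩ := hrz
      have hq0 : q ≠ 0 := by
        rintro rfl
        rw [mul_zero] at hq
        exact hne0 hq
      have hqd : q.natDegree = 1 := by
        have h1 : (aeval r F).natDegree = μ.natDegree + q.natDegree := by
          rw [hq, Polynomial.natDegree_mul hμ0 hq0]
        omega
      obtain ⟨s, hs⟩ := Polynomial.exists_root_of_degree_eq_one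
        (by rw [Polynomial.degree_eq_natDegree hq0, hqd]; rfl)
      refine ⟨fun i => (r i).eval s, ?_, ?_⟩
      · intro hs0
        -- the vector is a multiple of `X - s`
        have h1 : r = fun i => (Polynomial.X - Polynomial.C s) * Polynomial.C (b i) := by
          funext i
          have h2 := congrFun hs0 i
          simp only [Pi.zero_apply] at h2
          rw [hab i] at h2 ⊢
          simp only [Polynomial.eval_add, Polynomial.eval_mul, Polynomial.eval_C,
            Polynomial.eval_X] at h2
          have h3 : a i = - (b i * s) := by linear_combination h2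
          rw [h3]
          simp only [map_neg, map_mul]
          ring
        have h2 : aeval r F = (Polynomial.X - Polynomial.C s) ^ 3 * Polynomial.C (eval b F) := by
          rw [h1, aeval_mul hF, aeval_C]
        have h3 : μ ∣ (Polynomial.X - Polynomial.C s) ^ 3 * Polynomial.C (eval b F) := by
          rw [← h2]
          exact ⟨q, hq⟩
        have h4 : μ ∣ Polynomial.X - Polynomial.C s := by
          rcases hμ.prime.dvd_or_dvd h3 with h5 | h5
          · exact hμ.prime.dvd_of_dvd_pow h5
          · exact absurd (isUnit_of_dvd_unit h5 (Polynomial.isUnit_C.2 (IsUnit.mk0 _ hFb)))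
              hμ.not_isUnit
        have h5 := Polynomial.natDegree_le_of_dvd h4 (Polynomial.X_sub_C_ne_zero s)
        rw [Polynomial.natDegree_X_sub_C] at h5
        omega
      · have h1 := eval_aeval (F := F) r s
        rw [← h1, hq, Polynomial.eval_mul, hs, mul_zero]

end poly

end Run7.h151
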