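import Pool.Agent.Run7.h151.Base

/-! Rational curves through conjugate points and zeros of cubic forms. -/

set_option autoImplicit false

namespace Run7.h151

open MvPolynomial Module

section curve

variable {k K : Type*} [Field k] [Field K] [Algebra k K]

/-- the polynomials with given coefficients -/
noncomputable def pol (e : ℕ) (a : Fin (e + 1) → k) : Polynomial k :=
  ∑ j : Fin (e + 1), Polynomial.monomial (j : ℕ) (a j)

theorem pol_add (e : ℕ) (a b : Fin (e + 1) → k) : pol e (a + b) = pol e a + pol e b := by
  simp [pol, Finset.sum_add_distrib]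

theorem pol_smul (e : ℕ) (c : k) (a : Fin (e + 1) → k) : pol e (c • a) = c • pol e a := by
  unfold pol
  rw [Finset.smul_sum]
  refine Finset.sum_congr rfl fun j _ => ?_
  rw [Polynomial.smul_monomial]
  rfl

theorem pol_natDegree (e : ℕ) (a : Fin (e + 1) → k) : (pol e a).natDegree ≤ e := by
  refine Polynomial.natDegree_sum_le_of_forall_le _ _ fun j _ => ?_
  exact (Polynomial.natDegree_monomial_le _).trans (by omega)

theorem pol_coeff (e : ℕ) (a : Fin (e + 1) → k) (j : Fin (e + 1)) : (pol e a).coeff j = a j := by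
  unfold pol
  rw [Polynomial.finsetSum_coeff, Finset.sum_eq_single j]
  · rw [Polynomial.coeff_monomial_same]
  · intro i _ hi
    rw [Polynomial.coeff_monomial, if_neg]
    intro h
    exact hi (Fin.ext h)
  · intro h
    exact absurd (Finset.mem_univ _) h

variable {n : ℕ}

/-- The curves of degree at most `e` with prescribed orders at a point. -/
theorem exists_curve [FiniteDimensional k K] (b : Basis (Fin n) K (Fin n → K)) (v : Fin n → ℕ)
    (θ : K) (e : ℕ) (h1 : finrank k K * ∑ i, v i < (e + 1) * n) :
    ∃ (h : Fin n → Polynomial k) (η : Fin n → Polynomial K), (∃ i, h i ≠ 0) ∧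
      (∀ i, (h i).natDegree ≤ e) ∧
      (∀ i, (Polynomial.X - Polynomial.C θ) ^ (v i) ∣ η i) ∧
      ∀ i, (h i).map (algebraMap k K) = ∑ j, Polynomial.C (b j i) * η j := by
  classical
  let c : Fin n → Fin n → K := fun l i => b.repr (Pi.single l 1) i
  let H : (Fin n → Fin (e + 1) → k) → Fin n → Polynomial K := fun a i =>
    ∑ l, Polynomial.C (c l i) * (pol e (a l)).map (algebraMap k K)
  have Hadd : ∀ a a' i, H (a + a') i = H a i + H a' i := by
    intro a a' i
    simp only [H, Pi.add_apply, pol_add, Polynomial.map_add, mul_add, Finset.sum_add_distrib]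
  have Hsmul : ∀ (s : k) a i, H (s • a) i = Polynomial.C (algebraMap k K s) * H a i := by
    intro s a i
    simp only [H, Pi.smul_apply, pol_smul, Polynomial.map_smul, Finset.mul_sum]
    refine Finset.sum_congr rfl fun l _ => ?_
    rw [Polynomial.smul_eq_C_mul]
    ring
  let Φ : (Fin n → Fin (e + 1) → k) →ₗ[k] ((i : Fin n) → Fin (v i) → K) :=
    { toFun := fun a i j => (Polynomial.taylor θ (H a i)).coeff j
      map_add' := by
        intro a a'
        funext i j
        simp only [Hadd, map_add, Polynomial.coeff_add, Pi.add_apply]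
      map_smul' := by
        intro s a
        funext i j
        simp only [RingHom.id_apply, Pi.smul_apply]
        rw [Hsmul, Polynomial.taylor_mul, Polynomial.taylor_C, Polynomial.coeff_C_mul,
          Algebra.smul_def] }
  have hdim : finrank k ((i : Fin n) → Fin (v i) → K) <
      finrank k (Fin n → Fin (e + 1) → k) := by
    rw [Module.finrank_pi_fintype, Module.finrank_pi_fintype]
    simp only [Module.finrank_pi_fintype, Module.finrank_self, Finset.sum_const, Finset.card_univ,
      Fintype.card_fin, smul_eq_mul, mul_one]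
    rw [← Finset.sum_mul]
    calc (∑ i, v i) * finrank k K = finrank k K * ∑ i, v i := mul_comm _ _
      _ < (e + 1) * n := h1
      _ = n * (e + 1) := mul_comm _ _
  obtain ⟨a, ha, ha0⟩ := (Submodule.ne_bot_iff _).1 (LinearMap.ker_ne_bot_of_finrank_lt (f := Φ) hdim)
  refine ⟨fun l => pol e (a l), H a, ?_, fun i => pol_natDegree e _, ?_, ?_⟩
  · by_contra hne
    push Not at hne
    apply ha0
    funext i j
    rw [← pol_coeff e (a i) j, hne i, Polynomial.coeff_zero]
    rfl
  · intro i
    rw [Polynomial.X_sub_C_pow_dvd_iff, ← Polynomial.taylor_apply, Polynomial.X_pow_dvd_iff]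
    intro d hd
    exact congrFun (congrFun ha i) ⟨d, hd⟩
  · intro i
    simp only [H, Finset.mul_sum]
    rw [Finset.sum_comm]
    have : ∀ l, ∑ j, Polynomial.C (b j i) * (Polynomial.C (c l j) *
        (pol e (a l)).map (algebraMap k K)) =
        Polynomial.C ((Pi.single l 1 : Fin n → K) i) * (pol e (a l)).map (algebraMap k K) := by
      intro l
      have h2 : (Pi.single l 1 : Fin n → K) i = ∑ j, c l j * b j i := by
        conv_lhs => rw [← b.sum_repr (Pi.single l 1)]
        rw [Finset.sum_apply]
        rfl
      rw [h2, map_sum, Finset.sum_mul]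
      refine Finset.sum_congr rfl fun j _ => ?_
      rw [map_mul]
      ring
    simp only [this]
    rw [Finset.sum_eq_single i]
    · simp
    · intro l _ hl
      rw [Pi.single_eq_of_ne (Ne.symm hl)]
      simp
    · intro h
      exact absurd (Finset.mem_univ _) h

/-- The multiplicity of a root of a polynomial over the ground field. -/
theorem pow_minpoly_dvd [FiniteDimensional k K] [Algebra.IsSeparable k K] (θ : K) (c : ℕ) :
    ∀ f : Polynomial k, (Polynomial.X - Polynomial.C θ) ^ c ∣ f.map (algebraMap k K) →
      minpoly k θ ^ c ∣ f := by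
  induction c with
  | zero => intro f _; simp
  | succ c ih =>
    intro f hf
    have hint : IsIntegral k θ := Algebra.IsIntegral.isIntegral θ
    have hroot : Polynomial.aeval θ f = 0 := by
      have h1 : (Polynomial.X - Polynomial.C θ) ∣ f.map (algebraMap k K) :=
        (Dvd.intro_left _ (pow_succ _ _).symm : _ ∣ _).trans hf
      have h2 := Polynomial.dvd_iff_isRoot.1 h1
      rw [Polynomial.IsRoot, Polynomial.eval_map_algebraMap] at h2
      exact h2
    obtain ⟨f1, hf1⟩ := minpoly.dvd k θ hroot
    have hg : Polynomial.aeval θ (minpoly k θ) = 0 := minpoly.aeval k θ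
    have hg1 : (Polynomial.X - Polynomial.C θ) ∣ (minpoly k θ).map (algebraMap k K) := by
      rw [Polynomial.dvd_iff_isRoot, Polynomial.IsRoot, Polynomial.eval_map_algebraMap]
      exact hg
    obtain ⟨g', hg'⟩ := hg1
    have hsep : (minpoly k θ).Separable := Algebra.IsSeparable.isSeparable k θ
    have hsep' : ((minpoly k θ).map (algebraMap k K)).Separable := hsep.map
    have hcop : IsCoprime (Polynomial.X - Polynomial.C θ) g' := by
      rw [hg'] at hsep'
      exact hsep'.isCoprime
    have h3 : (Polynomial.X - Polynomial.C θ) ^ c ∣ g' * f1.map (algebraMap k K) := by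
      rw [hf1, Polynomial.map_mul, hg', pow_succ', mul_assoc] at hf
      exact (mul_dvd_mul_iff_left (Polynomial.X_sub_C_ne_zero θ)).1 hf
    have h4 : (Polynomial.X - Polynomial.C θ) ^ c ∣ f1.map (algebraMap k K) :=
      (hcop.pow_left).dvd_of_dvd_mul_left h3
    obtain ⟨f2, hf2⟩ := ih f1 h4
    refine ⟨f2, ?_⟩
    rw [hf1, hf2, pow_succ]
    ring

/-- The value of the form on the curve is divisible by a power of the minimal polynomial. -/
theorem dvd_value [FiniteDimensional k K] [Algebra.IsSeparable k K] (F : MvPolynomial (Fin n) k)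
    (b : Basis (Fin n) K (Fin n → K)) (v : Fin n → ℕ) (c : ℕ)
    (hsupp : ∀ m ∈ (aeval (fun i => ∑ j, C (b j i) * X j) F : MvPolynomial (Fin n) K).support,
      c ≤ ∑ i, m i * v i)
    (θ : K) (h : Fin n → Polynomial k) (η : Fin n → Polynomial K)
    (h1 : ∀ i, (Polynomial.X - Polynomial.C θ) ^ (v i) ∣ η i)
    (h2 : ∀ i, (h i).map (algebraMap k K) = ∑ j, Polynomial.C (b j i) * η j) :
    minpoly k θ ^ c ∣ aeval h F := by
  apply pow_minpoly_dvd
  have e1 : (aeval h F).map (algebraMap k K) =
      aeval (fun i => (h i).map (algebraMap k K)) F := by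
    have := MvPolynomial.comp_aeval_apply (R := k) h (Polynomial.mapAlg k K) F
    exact this
  have e2 : aeval (fun i => (h i).map (algebraMap k K)) F =
      aeval η (aeval (fun i => ∑ j, C (b j i) * X j) F : MvPolynomial (Fin n) K) := by
    have h3 := MvPolynomial.comp_aeval_apply (R := k)
      (fun i => (∑ j, C (b j i) * X j : MvPolynomial (Fin n) K))
      ((aeval η : MvPolynomial (Fin n) K →ₐ[K] Polynomial K).restrictScalars k) F
    have h4 : (fun i => (h i).map (algebraMap k K)) = fun i =>
        ((aeval η : MvPolynomial (Fin n) K →ₐ[K] Polynomial K).restrictScalars k)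
          (∑ j, C (b j i) * X j : MvPolynomial (Fin n) K) := by
      funext i
      rw [h2 i]
      simp only [AlgHom.restrictScalars_apply, map_sum, map_mul, aeval_X, MvPolynomial.algHom_C,
        Polynomial.algebraMap_eq]
    rw [h4]
    exact h3.symm
  rw [e1, e2, MvPolynomial.aeval_def, MvPolynomial.eval₂_eq']
  refine Finset.dvd_sum fun m hm => ?_
  refine Dvd.dvd.mul_left ?_ _
  have h5 : (Polynomial.X - Polynomial.C θ) ^ (∑ i, m i * v i) ∣ ∏ i, η i ^ m i := by
    rw [← Finset.prod_pow_eq_pow_sum]
    refine Finset.prod_dvd_prod_of_dvd _ _ fun i _ => ?_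
    rw [mul_comm, pow_mul]
    exact pow_dvd_pow_of_dvd (h1 i) _
  exact (pow_dvd_pow _ (hsupp m hm)).trans h5

/-- **The numerical criterion.** -/
theorem zero_of_flag [FiniteDimensional k K] [Algebra.IsSeparable k K]
    {F : MvPolynomial (Fin n) k} (hF : F.IsHomogeneous 3)
    (b : Basis (Fin n) K (Fin n → K)) (v : Fin n → ℕ) (c e : ℕ)
    (hsupp : ∀ m ∈ (aeval (fun i => ∑ j, C (b j i) * X j) F : MvPolynomial (Fin n) K).support,
      c ≤ ∑ i, m i * v i)
    (h1 : finrank k K * ∑ i, v i < (e + 1) * n)
    (h2 : 3 * e < finrank k K * c ∨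
      (3 ≤ finrank k K ∧ 3 * e ≤ finrank k K * c + 2 ∧ 3 * e ≠ finrank k K * c)) :
    ∃ x : Fin n → k, x ≠ 0 ∧ eval x F = 0 := by
  classical
  obtain ⟨θ, hθ⟩ := Field.exists_primitive_element k K
  have hint : IsIntegral k θ := Algebra.IsIntegral.isIntegral θ
  have hg : (minpoly k θ).natDegree = finrank k K := by
    rw [← IntermediateField.adjoin.finrank hint, hθ]
    exact IntermediateField.finrank_top'
  have hirr : Irreducible (minpoly k θ) := minpoly.irreducible hint
  obtain ⟨h, η, ⟨i0, hi0⟩, hdeg, h3, h4⟩ := exists_curve (k := k) b v θ e h1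
  have hdvd := dvd_value F b v c hsupp θ h η h3 h4
  -- the exact degree
  let e' : ℕ := Finset.univ.sup fun i => (h i).natDegree
  have he' : ∀ i, (h i).natDegree ≤ e' := fun i =>
    Finset.le_sup (f := fun i => (h i).natDegree) (Finset.mem_univ i)
  have hee : e' ≤ e := Finset.sup_le fun i _ => hdeg i
  have hy : (fun i => (h i).coeff e') ≠ 0 := by
    obtain ⟨i1, _, hi1⟩ := Finset.exists_mem_eq_sup Finset.univ ⟨i0, Finset.mem_univ i0⟩
      fun i => (h i).natDegree
    intro h0
    by_cases hz : h i1 = 0
    · have h5 : e' = 0 := by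
        change (Finset.univ.sup fun i => (h i).natDegree) = 0
        rw [hi1, hz, Polynomial.natDegree_zero]
      have h6 := congrFun h0 i0
      simp only [Pi.zero_apply] at h6
      have h7 := he' i0
      rw [h5] at h6 h7
      apply hi0
      rw [Polynomial.eq_C_of_natDegree_le_zero h7, h6, map_zero]
    · have h6 := congrFun h0 i1
      have h7 : e' = (h i1).natDegree := hi1
      simp only [Pi.zero_apply] at h6
      rw [h7] at h6
      exact hz (Polynomial.leadingCoeff_eq_zero.1 h6)
  by_cases hFy : eval (fun i => (h i).coeff e') F = 0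
  · exact ⟨_, hy, hFy⟩
  obtain ⟨ht1, ht2⟩ := coeff_top hF h e' he'
  have hc3 : (aeval h F).coeff (3 * e') ≠ 0 := by
    rw [ht2]
    exact hFy
  have hdeg3 : (aeval h F).natDegree = 3 * e' :=
    le_antisymm ht1 (Polynomial.le_natDegree_of_ne_zero hc3)
  have hne0 : aeval h F ≠ 0 := by
    intro h5
    rw [h5] at hc3
    exact hc3 (Polynomial.coeff_zero _)
  obtain ⟨r, hr⟩ := hdvd
  have hr0 : r ≠ 0 := by
    rintro rfl
    rw [mul_zero] at hr
    exact hne0 hr
  have hrd : 3 * e' = finrank k K * c + r.natDegree := by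
    rw [← hdeg3, hr, Polynomial.natDegree_mul (pow_ne_zero _ hirr.ne_zero) hr0,
      Polynomial.natDegree_pow, hg, mul_comm]
  rcases h2 with h2 | ⟨hd3, h2, h2'⟩
  · exfalso
    omega
  · have hr1 : 1 ≤ r.natDegree := by
      by_contra hlt
      have h5 : r.natDegree = 0 := by omega
      apply h2'
      omega
    have hr2 : r.natDegree ≤ 2 := by omega
    have hru : ¬ IsUnit r := by
      intro h5
      have := Polynomial.natDegree_eq_zero_of_isUnit h5
      omega
    obtain ⟨q, hq, hqr⟩ := WfDvdMonoid.exists_irreducible_factor hru hr0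
    have hqd : q.natDegree ≤ 2 := (Polynomial.natDegree_le_of_dvd hqr hr0).trans hr2
    have hqg : ¬ q ∣ minpoly k θ := by
      intro h5
      have h6 : Associated q (minpoly k θ) := hq.associated_of_dvd hirr h5
      have h7 := Polynomial.natDegree_eq_of_degree_eq (Polynomial.degree_eq_degree_of_associated h6)
      omega
    refine zero_of_quadratic hF h q hq hqd ?_ (hr ▸ Dvd.dvd.mul_left hqr _)
    intro hall
    choose h' hh' using hall
    have h5 : aeval h F = q ^ 3 * aeval h' F := by
      have : h = fun i => q * h' i := funext hh'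
      rw [this, aeval_mul hF]
    have h6 : q ^ 3 ∣ minpoly k θ ^ c * r := by
      rw [← hr, h5]
      exact dvd_mul_right _ _
    have hcop : IsCoprime (q ^ 3) (minpoly k θ ^ c) :=
      ((hq.coprime_iff_not_dvd.2 hqg).pow_left).pow_right
    have h7 : q ^ 3 ∣ r := hcop.dvd_of_dvd_mul_left h6
    have h8 := Polynomial.natDegree_le_of_dvd h7 hr0
    rw [Polynomial.natDegree_pow] at h8
    have h9 : 1 ≤ q.natDegree := by
      rcases Nat.eq_zero_or_pos q.natDegree with h10 | h10
      · exfalso
        exact hq.not_isUnit (Polynomial.isUnit_iff_degree_eq_zero.2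
          (by rw [Polynomial.degree_eq_natDegree hq.ne_zero, h10]; rfl))
      · exact h10
    omega

end curve

end Run7.h151
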