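import Pool.Agent.Run7.h151.Sing

/-! A generic point of the singular locus with its derivations. -/

set_option autoImplicit false
set_option linter.all false

namespace Run7.h151

open MvPolynomial Module

theorem exists_prime {R : Type*} [CommRing R] (s : ℕ) (hs : (s : WithBot ℕ∞) ≤ ringKrullDim R) :
    ∃ q : Ideal R, q.IsPrime ∧ (s : WithBot ℕ∞) ≤ ringKrullDim (R ⧸ q) := by
  obtain ⟨l, hl⟩ := Order.le_krullDim_iff.1 hs
  refine ⟨l.head.asIdeal, l.head.isPrime, ?_⟩
  rw [ringKrullDim_quotient, Order.le_krullDim_iff]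
  refine ⟨⟨l.length, fun i => ⟨l i, ?_⟩, ?_⟩, hl⟩
  · have h1 : l.head ≤ l i := LTSeries.head_le l i
    exact h1
  · intro i
    exact l.step i

theorem generic_aux {n : ℕ} {A L : Type} [CommRing A] [IsDomain A] [Algebra ℚ A] [Field L]
    [CharZero L] (π : MvPolynomial (Fin n) ℚ →ₐ[ℚ] A) (hπ : Function.Surjective π)
    (ι : A →ₐ[ℚ] L) (hι : Function.Injective ι) (s : ℕ) (x : Fin s → A)
    (hx : AlgebraicIndependent ℚ x) :
    ∃ D : Fin s → Derivation ℚ L L,
      LinearIndependent L (fun a => (fun i => D a (ι (π (X i))) : Fin n → L)) := by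
  classical
  let y : Fin s → L := fun a => ι (x a)
  have hy : AlgebraicIndependent ℚ y := hx.map' hι
  let z : Fin n → L := fun i => ι (π (X i))
  have hzπ : ∀ p, aeval z p = ι (π p) := by
    intro p
    have h1 := MvPolynomial.comp_aeval_apply (R := ℚ) (fun i => (X i : MvPolynomial (Fin n) ℚ))
      (ι.comp π) p
    rw [MvPolynomial.aeval_X_left_apply] at h1
    exact h1.symm
  -- the derivations
  have hD : ∀ a : Fin s, ∃ E : Derivation ℚ L L, ∀ p : MvPolynomial (Fin s) ℚ,
      E (aeval y p) = aeval y (pderiv a p) := by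
    intro a
    refine Run7.h131.LL.exists_ext_lin (k := ℚ) (aeval y) (fun p => aeval y (pderiv a p))
      ?_ ?_ ?_ ?_
    · intro p p'
      simp only [map_add]
    · intro p p'
      rw [Derivation.leibniz]
      simp only [smul_eq_mul, map_add, map_mul]
    · intro c
      rw [MvPolynomial.algebraMap_eq, pderiv_C, map_zero]
    · intro p hp
      have : p = 0 := by
        apply hy
        rw [map_zero]
        exact hp
      rw [this, map_zero, map_zero]
  choose D hD using hD
  have hDy : ∀ a b, D a (y b) = if a = b then 1 else 0 := by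
    intro a b
    have h1 := hD a (X b)
    rw [aeval_X] at h1
    rw [h1, pderiv_X]
    by_cases h : a = b
    · subst h; simp
    · simp [Pi.single_eq_of_ne (Ne.symm h), h]
  refine ⟨D, ?_⟩
  rw [Fintype.linearIndependent_iff]
  intro c hc b
  let E : Derivation ℚ L L := ∑ a, c a • D a
  have hE : ∀ w, E w = ∑ a, c a * D a w := by
    intro w
    have h1 := map_sum (Derivation.coeFnAddMonoidHom (R := ℚ) (A := L) (M := L))
      (fun a => c a • D a) Finset.univ
    have h2 := congrFun h1 w
    rw [Finset.sum_apply] at h2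
    exact h2
  have hEz : ∀ i, E (z i) = 0 := by
    intro i
    rw [hE]
    have := congrFun hc i
    simpa [Finset.sum_apply] using this
  have hEy : E (y b) = 0 := by
    obtain ⟨p, hp⟩ := hπ (x b)
    have h1 : y b = aeval z p := by
      rw [hzπ, hp]
    have h2 : y b ∈ Algebra.adjoin ℚ (Set.range z) := by
      rw [h1, Algebra.adjoin_range_eq_range_aeval]
      exact ⟨p, rfl⟩
    refine Run7.h131.LL.alg_kill_adjoin E (Set.range z) ?_
      (isAlgebraic_algebraMap (⟨y b, h2⟩ : Algebra.adjoin ℚ (Set.range z)))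
    rintro _ ⟨i, rfl⟩
    exact hEz i
  rw [hE] at hEy
  simp only [hDy] at hEy
  simpa using hEy

theorem exists_generic {n : ℕ} (J : Ideal (MvPolynomial (Fin n) ℚ)) (s : ℕ)
    (hs : (s : WithBot ℕ∞) ≤ ringKrullDim (MvPolynomial (Fin n) ℚ ⧸ J)) :
    ∃ (L : Type) (_ : Field L) (_ : CharZero L) (z : Fin n → L) (D : Fin s → Derivation ℚ L L),
      (∀ f ∈ J, aeval z f = 0) ∧
      LinearIndependent L (fun a => (fun i => D a (z i) : Fin n → L)) := by
  classical
  obtain ⟨q, hq, hqs⟩ := exists_prime s hs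
  let A := (MvPolynomial (Fin n) ℚ ⧸ J) ⧸ q
  haveI : IsDomain A := Ideal.Quotient.isDomain q
  let π : MvPolynomial (Fin n) ℚ →ₐ[ℚ] A := (Ideal.Quotient.mkₐ ℚ q).comp (Ideal.Quotient.mkₐ ℚ J)
  have hπ : Function.Surjective π :=
    (Ideal.Quotient.mkₐ_surjective ℚ q).comp (Ideal.Quotient.mkₐ_surjective ℚ J)
  haveI : Algebra.FiniteType ℚ A := Algebra.FiniteType.of_surjective π hπ
  obtain ⟨s', hs1, hs2⟩ := Pool.Agent.Helper834.EC.exists_ringKrullDim_eq_trdeg ℚ A
  have hss : s ≤ s' := by
    have h1 : (s : WithBot ℕ∞) ≤ ringKrullDim A := hqs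
    rw [hs1] at h1
    exact_mod_cast h1
  obtain ⟨I, x, hx⟩ := exists_isTranscendenceBasis' ℚ A
  have hcard : Cardinal.mk I = s' := by
    rw [← hs2]
    exact hx.cardinalMk_eq_trdeg
  haveI : Finite I := by
    rw [← Cardinal.lt_aleph0_iff_finite, hcard]
    exact Cardinal.natCast_lt_aleph0
  haveI : Fintype I := Fintype.ofFinite I
  have hcard' : Fintype.card I = s' := by
    rw [Cardinal.mk_fintype] at hcard
    exact_mod_cast hcard
  obtain ⟨f⟩ : Nonempty (Fin s ↪ I) := by
    rw [Function.Embedding.nonempty_iff_card_le]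
    simp only [Fintype.card_fin]
    omega
  let L := FractionRing A
  haveI : CharZero L := by
    have h1 : Function.Injective ((algebraMap A L).comp (algebraMap ℚ A)) :=
      ((algebraMap A L).comp (algebraMap ℚ A)).injective
    exact charZero_of_injective_ringHom h1
  let ι : A →ₐ[ℚ] L := (algebraMap A L).toRatAlgHom
  have hι : Function.Injective ι := IsFractionRing.injective A L
  obtain ⟨D, hD⟩ := generic_aux π hπ ι hι s (x ∘ f) (hx.1.comp f f.injective)
  refine ⟨L, inferInstance, inferInstance, fun i => ι (π (X i)), D, ?_, hD⟩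
  intro p hp
  have hzπ : aeval (fun i => ι (π (X i))) p = ι (π p) := by
    have h1 := MvPolynomial.comp_aeval_apply (R := ℚ) (fun i => (X i : MvPolynomial (Fin n) ℚ))
      (ι.comp π) p
    rw [MvPolynomial.aeval_X_left_apply] at h1
    exact h1.symm
  rw [hzπ]
  have : π p = 0 := by
    change Ideal.Quotient.mk q (Ideal.Quotient.mk J p) = 0
    rw [Ideal.Quotient.eq_zero_iff_mem.2 hp, map_zero]
  rw [this, map_zero]

/-- **Cubic forms with a large singular locus.** -/
theorem zero_of_dim {n : ℕ} (hn : 2 ≤ n) {F : MvPolynomial (Fin n) ℚ} (hF : F.IsHomogeneous 3)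
    (s : ℕ) (hs : (s : WithBot ℕ∞) ≤ ringKrullDim (MvPolynomial (Fin n) ℚ ⧸
      Ideal.span (Set.range fun i => pderiv i F)))
    (hd : 2 * n < 3 * (s + 1)) : ∃ x : Fin n → ℚ, x ≠ 0 ∧ eval x F = 0 := by
  obtain ⟨L, iL, iC, z, D, h1, h2⟩ := exists_generic _ s hs
  refine zero_of_singular (by omega) hF z ?_ ?_ s D h2 hd
  · rintro rfl
    have hs0 : 0 < s := by omega
    have := h2.ne_zero ⟨0, hs0⟩
    apply this
    funext i
    simp
  · intro i
    exact h1 _ (Ideal.subset_span ⟨i, rfl⟩)

/-- clearing denominators -/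
theorem int_zero {n : ℕ} {F : MvPolynomial (Fin n) ℚ} (hF : F.IsHomogeneous 3)
    (h : ∃ x : Fin n → ℚ, x ≠ 0 ∧ eval x F = 0) :
    ∃ x : Fin n → ℤ, x ≠ 0 ∧ eval (fun i => (x i : ℚ)) F = 0 := by
  obtain ⟨x, hx0, hx⟩ := h
  obtain ⟨b, hb⟩ := IsLocalization.exist_integer_multiples_of_finite (nonZeroDivisors ℤ) x
  choose a ha using hb
  have hb0 : (((b : ℤ) : ℚ)) ≠ 0 := by
    intro h
    exact nonZeroDivisors.ne_zero b.2 (by exact_mod_cast h)
  have hax : (fun i => ((a i : ℤ) : ℚ)) = fun i => ((b : ℤ) : ℚ) * x i := by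
    funext i
    have := ha i
    rw [Algebra.smul_def] at this
    simpa using this
  refine ⟨a, ?_, ?_⟩
  · intro h0
    apply hx0
    funext i
    have := congrFun hax i
    simp only [h0, Pi.zero_apply] at this
    exact (mul_eq_zero.mp this.symm).resolve_left hb0 |>.trans rfl
  · rw [hax]
    have := aeval_mul (k := ℚ) (A := ℚ) hF ((b : ℤ) : ℚ) x
    rw [MvPolynomial.aeval_eq_eval, MvPolynomial.aeval_eq_eval] at this
    have h3 : eval (fun i => ((b : ℤ) : ℚ) * x i) F = ((b : ℤ) : ℚ) ^ 3 * eval x F := this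
    rw [h3, hx, mul_zero]

end Run7.h151
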