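import Mathlib

/-! Specialisation of a flag over an arbitrary extension of the rational numbers to a number
field. -/

set_option autoImplicit false
set_option linter.all false

namespace Run7.h151

open MvPolynomial Module

/-- the form in the coordinates of the rows of a matrix -/
noncomputable def GG {n : ℕ} {A : Type*} [CommRing A] [Algebra ℚ A] (F : MvPolynomial (Fin n) ℚ)
    (M : Fin n → Fin n → A) : MvPolynomial (Fin n) A :=
  aeval (fun i => ∑ j, C (M j i) * X j) F

theorem GG_map {n : ℕ} {A B : Type*} [CommRing A] [Algebra ℚ A] [CommRing B] [Algebra ℚ B]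
    (φ : A →ₐ[ℚ] B) (F : MvPolynomial (Fin n) ℚ) (M : Fin n → Fin n → A) :
    MvPolynomial.map (φ : A →+* B) (GG F M) = GG F (fun j i => φ (M j i)) := by
  unfold GG
  have h := MvPolynomial.comp_aeval_apply (R := ℚ) (fun i => ∑ j, C (M j i) * X j)
    (MvPolynomial.mapAlgHom (σ := Fin n) φ) F
  rw [MvPolynomial.mapAlgHom_apply] at h
  have e : (fun i => ∑ j, C (φ (M j i)) * X j : Fin n → MvPolynomial (Fin n) B) =
      fun i => MvPolynomial.mapAlgHom (σ := Fin n) φ (∑ j, C (M j i) * X j) := by
    funext i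
    simp only [map_sum, map_mul, MvPolynomial.mapAlgHom_apply, MvPolynomial.map_C,
      MvPolynomial.map_X]
    rfl
  rw [e]
  exact h

theorem exists_point {k : Type*} [Field k] [CharZero k] (S : Finset k) :
    ∃ (K : Type) (_ : Field K) (_ : NumberField K),
      Nonempty (Algebra.adjoin ℚ (S : Set k) →+* K) := by
  let A := Algebra.adjoin ℚ (S : Set k)
  obtain ⟨m, hm⟩ := Ideal.exists_maximal A
  haveI : Algebra.FiniteType ℚ A := A.fg_iff_finiteType.1 (Subalgebra.fg_adjoin_finset S)
  letI : Field (A ⧸ m) := Ideal.Quotient.field m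
  haveI : Algebra.FiniteType ℚ (A ⧸ m) :=
    Algebra.FiniteType.of_surjective (Ideal.Quotient.mkₐ ℚ m) (Ideal.Quotient.mkₐ_surjective ℚ m)
  haveI : Module.Finite ℚ (A ⧸ m) := finite_of_finite_type_of_isJacobsonRing ℚ (A ⧸ m)
  let φ : (A ⧸ m) →ₐ[ℚ] AlgebraicClosure ℚ := IsAlgClosed.lift
  let K : IntermediateField ℚ (AlgebraicClosure ℚ) := φ.fieldRange
  let ψ : (A ⧸ m) →ₐ[ℚ] K := φ.rangeRestrict
  have hψ : Function.Surjective ψ := φ.rangeRestrict_surjective
  haveI : Module.Finite ℚ K := Module.Finite.of_surjective ψ.toLinearMap hψ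
  haveI : NumberField K := { to_charZero := inferInstance, to_finiteDimensional := by
                               convert ‹Module.Finite ℚ K› }
  exact ⟨K, inferInstance, inferInstance, ⟨(ψ : (A ⧸ m) →+* K).comp (Ideal.Quotient.mk m)⟩⟩

/-- A flag over an arbitrary extension specialises to a number field. -/
theorem specialize {n : ℕ} (hn : 0 < n) {L : Type*} [Field L] [CharZero L]
    (F : MvPolynomial (Fin n) ℚ)
    (b : Basis (Fin n) L (Fin n → L)) (v : Fin n → ℕ) (c : ℕ)
    (h : ∀ m ∈ (GG F (fun j i => b j i)).support, c ≤ ∑ i, m i * v i) :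
    ∃ (K : Type) (_ : Field K) (_ : NumberField K) (b' : Basis (Fin n) K (Fin n → K)),
      ∀ m ∈ (GG F (fun j i => b' j i)).support, c ≤ ∑ i, m i * v i := by
  classical
  let M : Matrix (Fin n) (Fin n) L := fun j i => b j i
  have hM : IsUnit M := by
    rw [← Matrix.linearIndependent_rows_iff_isUnit]
    exact b.linearIndependent
  let N : Matrix (Fin n) (Fin n) L := M⁻¹
  have hMN : M * N = 1 := Matrix.mul_nonsing_inv M ((Matrix.isUnit_iff_isUnit_det M).1 hM)
  let S : Finset L := (Finset.univ.image fun p : Fin n × Fin n => M p.1 p.2) ∪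
    (Finset.univ.image fun p : Fin n × Fin n => N p.1 p.2)
  obtain ⟨K, iK, iN, ⟨φ⟩⟩ := exists_point S
  have hMS : ∀ j i, M j i ∈ Algebra.adjoin ℚ (S : Set L) := fun j i =>
    Algebra.subset_adjoin (by
      rw [Finset.mem_coe, Finset.mem_union]
      exact Or.inl (Finset.mem_image.2 ⟨(j, i), Finset.mem_univ _, rfl⟩))
  have hNS : ∀ j i, N j i ∈ Algebra.adjoin ℚ (S : Set L) := fun j i =>
    Algebra.subset_adjoin (by
      rw [Finset.mem_coe, Finset.mem_union]
      exact Or.inr (Finset.mem_image.2 ⟨(j, i), Finset.mem_univ _, rfl⟩))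
  let MA : Matrix (Fin n) (Fin n) (Algebra.adjoin ℚ (S : Set L)) := fun j i => ⟨M j i, hMS j i⟩
  let NA : Matrix (Fin n) (Fin n) (Algebra.adjoin ℚ (S : Set L)) := fun j i => ⟨N j i, hNS j i⟩
  have hA : MA * NA = 1 := by
    ext j i
    have h1 := congrFun (congrFun hMN j) i
    rw [Matrix.mul_apply] at h1 ⊢
    rw [AddSubmonoidClass.coe_finsetSum]
    simp only [MA, NA, MulMemClass.mk_mul_mk]
    rw [h1]
    by_cases hij : j = i
    · subst hij; simp
    · simp [Matrix.one_apply_ne hij]
  let MK : Matrix (Fin n) (Fin n) K := MA.map φ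
  have hK : MK * NA.map φ = 1 := by
    rw [← Matrix.map_mul, hA]
    simp
  have hMK : IsUnit MK := by
    rw [Matrix.isUnit_iff_isUnit_det]
    exact Matrix.isUnit_det_of_right_inverse hK
  have hli : LinearIndependent K MK.row := Matrix.linearIndependent_rows_iff_isUnit.2 hMK
  haveI : Nonempty (Fin n) := ⟨⟨0, hn⟩⟩
  let b' : Basis (Fin n) K (Fin n → K) := basisOfLinearIndependentOfCardEqFinrank hli (by simp)
  have hb' : ∀ j i, b' j i = φ (MA j i) := by
    intro j i
    have : (b' : Fin n → Fin n → K) = MK.row := coe_basisOfLinearIndependentOfCardEqFinrank hli _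
    rw [this]
    rfl
  refine ⟨K, iK, iN, b', ?_⟩
  intro m hm
  apply h m
  rw [MvPolynomial.mem_support_iff] at hm ⊢
  intro h0
  apply hm
  let φ' : Algebra.adjoin ℚ (S : Set L) →ₐ[ℚ] K := φ.toRatAlgHom
  have e1 : GG F (fun j i => b' j i) = MvPolynomial.map (φ' : _ →+* K) (GG F MA) := by
    rw [GG_map]
    congr 1
    funext j i
    exact hb' j i
  have e2 : GG F (fun j i => b j i) =
      MvPolynomial.map ((Algebra.adjoin ℚ (S : Set L)).val : _ →+* L) (GG F MA) := by
    rw [GG_map]
    rfl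
  rw [e2, MvPolynomial.coeff_map] at h0
  have h3 : MvPolynomial.coeff m (GG F MA) = 0 := by
    apply Subtype.ext
    exact h0
  rw [e1, MvPolynomial.coeff_map, h3, map_zero]

end Run7.h151
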