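import Pool.Agent.Run7.h151.Curve
import Pool.Agent.Run7.h151.Special

/-! Unstable forms and forms with a flag of singular type. -/

set_option autoImplicit false
set_option linter.all false

namespace Run7.h151

open MvPolynomial Module

/-- A form with a destabilising flag over any extension of the rational numbers has a rational
zero. -/
theorem zero_of_unstable {n : ℕ} (hn : 0 < n) {L : Type*} [Field L] [CharZero L]
    {F : MvPolynomial (Fin n) ℚ} (hF : F.IsHomogeneous 3)
    (b : Basis (Fin n) L (Fin n → L)) (v : Fin n → ℕ) (c : ℕ)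
    (h : ∀ m ∈ (GG F (fun j i => b j i)).support, c ≤ ∑ i, m i * v i)
    (hv : 3 * ∑ i, v i < n * c) : ∃ x : Fin n → ℚ, x ≠ 0 ∧ eval x F = 0 := by
  obtain ⟨K, iK, iN, b', hb'⟩ := specialize hn F b v c h
  have hd : 0 < finrank ℚ K := finrank_pos
  set d := finrank ℚ K with hdd
  let e : ℕ := (d * ∑ i, v i) / n
  have h1 : n * e + (d * ∑ i, v i) % n = d * ∑ i, v i := Nat.div_add_mod _ _
  have h2 : (d * ∑ i, v i) % n < n := Nat.mod_lt _ hn
  refine zero_of_flag hF b' v c e hb' ?_ (Or.inl ?_)
  · calc d * ∑ i, v i = n * e + (d * ∑ i, v i) % n := h1.symm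
      _ < n * e + n := by omega
      _ = (e + 1) * n := by ring
  · have h3 : n * (3 * e) < n * (d * c) := by
      calc n * (3 * e) = 3 * (n * e) := by ring
        _ ≤ 3 * (d * ∑ i, v i) := by omega
        _ = d * (3 * ∑ i, v i) := by ring
        _ < d * (n * c) := Nat.mul_lt_mul_of_pos_left hv hd
        _ = n * (d * c) := by ring
    exact Nat.lt_of_mul_lt_mul_left h3

/-- A basis adapted to two subspaces. -/
theorem exists_flag_basis {n : ℕ} {L : Type*} [Field L] (W1 W2 : Submodule L (Fin n → L))
    (h12 : W1 ≤ W2) : ∃ (b : Basis (Fin n) L (Fin n → L)) (v : Fin n → ℕ),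
      (∀ j, v j ≤ 2) ∧ (∀ j, v j = 0 → b j ∈ W1) ∧ (∀ j, v j ≤ 1 → b j ∈ W2) ∧
      ∑ i, v i + finrank L W1 + finrank L W2 = 2 * n := by
  classical
  obtain ⟨B0, hB0, -, hs0, hl0⟩ := exists_linearIndepOn_id_extension (K := L)
    (s := (∅ : Set (Fin n → L))) (t := (W1 : Set (Fin n → L))) (linearIndepOn_empty L id)
    (Set.empty_subset _)
  obtain ⟨B1, hB1, h01, hs1, hl1⟩ := exists_linearIndepOn_id_extension (K := L)
    (s := B0) (t := (W2 : Set (Fin n → L))) hl0 (hB0.trans h12)
  obtain ⟨B2, hB2, h12', hs2, hl2⟩ := exists_linearIndepOn_id_extension (K := L)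
    (s := B1) (t := (Set.univ : Set (Fin n → L))) hl1 (Set.subset_univ _)
  have e0 : Submodule.span L B0 = W1 := le_antisymm (Submodule.span_le.2 hB0) hs0
  have e1 : Submodule.span L B1 = W2 := le_antisymm (Submodule.span_le.2 hB1) hs1
  have f2 : B2.Finite := hl2.linearIndependent.setFinite
  have f1 : B1.Finite := f2.subset h12'
  have f0 : B0.Finite := f1.subset h01
  haveI : Fintype B2 := f2.fintype
  haveI : Fintype B1 := f1.fintype
  haveI : Fintype B0 := f0.fintype
  have c0 : finrank L W1 = B0.toFinset.card := by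
    rw [← e0]; exact finrank_span_set_eq_card hl0
  have c1 : finrank L W2 = B1.toFinset.card := by
    rw [← e1]; exact finrank_span_set_eq_card hl1
  let b2 : Basis B2 L (Fin n → L) := Basis.mk hl2.linearIndependent (by
    intro x _
    have := hs2 (Set.mem_univ x)
    simpa using this)
  have c2 : Fintype.card B2 = n := by
    rw [← Module.finrank_eq_card_basis b2]; simp
  let ε : B2 ≃ Fin n := Fintype.equivFinOfCardEq c2
  let b : Basis (Fin n) L (Fin n → L) := b2.reindex ε
  have hb : ∀ j, b j = ((ε.symm j : B2) : Fin n → L) := by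
    intro j
    simp [b, b2]
  let w : (Fin n → L) → ℕ := fun x => if x ∈ B0 then 0 else if x ∈ B1 then 1 else 2
  refine ⟨b, fun j => w (b j), ?_, ?_, ?_, ?_⟩
  · intro j
    simp only [w]
    split_ifs <;> omega
  · intro j hj
    simp only [w] at hj
    split_ifs at hj with h1 h2
    exact hB0 h1
  · intro j hj
    simp only [w] at hj
    split_ifs at hj with h1 h2
    · exact h12 (hB0 h1)
    · exact hB1 h2
    · omega
  · have s1 : ∑ j, w (b j) = ∑ x ∈ B2.toFinset, w x := by
      rw [← Finset.sum_coe_sort B2.toFinset]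
      refine Fintype.sum_equiv (ε.symm.trans (Equiv.subtypeEquivRight (by simp))) _ _ ?_
      intro j
      rw [hb]
      rfl
    have s2 : ∀ x ∈ B2.toFinset, w x + (if x ∈ B0.toFinset then 1 else 0) +
        (if x ∈ B1.toFinset then 1 else 0) = 2 := by
      intro x _
      simp only [w, Set.mem_toFinset]
      by_cases h0 : x ∈ B0
      · simp [h0, h01 h0]
      · by_cases h1 : x ∈ B1
        · simp [h0, h1]
        · simp [h0, h1]
    have s3 : ∑ x ∈ B2.toFinset, (w x + (if x ∈ B0.toFinset then 1 else 0) +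
        (if x ∈ B1.toFinset then 1 else 0)) = 2 * n := by
      rw [Finset.sum_congr rfl s2, Finset.sum_const, Set.toFinset_card, c2, smul_eq_mul]
      ring
    rw [Finset.sum_add_distrib, Finset.sum_add_distrib, Finset.sum_ite_mem,
      Finset.sum_ite_mem] at s3
    have i0 : B2.toFinset ∩ B0.toFinset = B0.toFinset := by
      apply Finset.inter_eq_right.2
      rw [Set.toFinset_subset_toFinset]
      exact h01.trans h12'
    have i1 : B2.toFinset ∩ B1.toFinset = B1.toFinset := by
      apply Finset.inter_eq_right.2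
      rw [Set.toFinset_subset_toFinset]
      exact h12'
    rw [i0, i1] at s3
    rw [s1, c0, c1]
    simpa using s3

end Run7.h151
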