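import Pool.Agent.Run7.h151.Dim

/-! Cubic forms with a family of singular points of small Hessian rank. -/

set_option autoImplicit false
set_option linter.all false

namespace Run7.h151

open MvPolynomial Module

/-- A basis adapted to three subspaces, with the weights `0, 3, 4, 6`. -/
theorem exists_flag_basis3 {n : ℕ} {L : Type*} [Field L] (W1 W2 W3 : Submodule L (Fin n → L))
    (h12 : W1 ≤ W2) (h23 : W2 ≤ W3) : ∃ (b : Basis (Fin n) L (Fin n → L)) (v : Fin n → ℕ),
      (∀ j, v j = 0 ∨ v j = 3 ∨ v j = 4 ∨ v j = 6) ∧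
      (∀ j, v j = 0 → b j ∈ W1) ∧ (∀ j, v j ≤ 3 → b j ∈ W2) ∧ (∀ j, v j ≤ 4 → b j ∈ W3) ∧
      ∑ i, v i + 3 * finrank L W1 + finrank L W2 + 2 * finrank L W3 = 6 * n := by
  classical
  obtain ⟨B0, hB0, -, hs0, hl0⟩ := exists_linearIndepOn_id_extension (K := L)
    (s := (∅ : Set (Fin n → L))) (t := (W1 : Set (Fin n → L))) (linearIndepOn_empty L id)
    (Set.empty_subset _)
  obtain ⟨B1, hB1, h01, hs1, hl1⟩ := exists_linearIndepOn_id_extension (K := L)
    (s := B0) (t := (W2 : Set (Fin n → L))) hl0 (hB0.trans h12)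
  obtain ⟨B2, hB2, h12', hs2, hl2⟩ := exists_linearIndepOn_id_extension (K := L)
    (s := B1) (t := (W3 : Set (Fin n → L))) hl1 (hB1.trans h23)
  obtain ⟨B3, hB3, h23', hs3, hl3⟩ := exists_linearIndepOn_id_extension (K := L)
    (s := B2) (t := (Set.univ : Set (Fin n → L))) hl2 (Set.subset_univ _)
  have e0 : Submodule.span L B0 = W1 := le_antisymm (Submodule.span_le.2 hB0) hs0
  have e1 : Submodule.span L B1 = W2 := le_antisymm (Submodule.span_le.2 hB1) hs1
  have e2 : Submodule.span L B2 = W3 := le_antisymm (Submodule.span_le.2 hB2) hs2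
  have f3 : B3.Finite := hl3.linearIndependent.setFinite
  have f2 : B2.Finite := f3.subset h23'
  have f1 : B1.Finite := f2.subset h12'
  have f0 : B0.Finite := f1.subset h01
  haveI : Fintype B3 := f3.fintype
  haveI : Fintype B2 := f2.fintype
  haveI : Fintype B1 := f1.fintype
  haveI : Fintype B0 := f0.fintype
  have c0 : finrank L W1 = B0.toFinset.card := by
    rw [← e0]; exact finrank_span_set_eq_card hl0
  have c1 : finrank L W2 = B1.toFinset.card := by
    rw [← e1]; exact finrank_span_set_eq_card hl1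
  have c2 : finrank L W3 = B2.toFinset.card := by
    rw [← e2]; exact finrank_span_set_eq_card hl2
  let b3 : Basis B3 L (Fin n → L) := Basis.mk hl3.linearIndependent (by
    intro x _
    have := hs3 (Set.mem_univ x)
    simpa using this)
  have c3 : Fintype.card B3 = n := by
    rw [← Module.finrank_eq_card_basis b3]; simp
  let ε : B3 ≃ Fin n := Fintype.equivFinOfCardEq c3
  let b : Basis (Fin n) L (Fin n → L) := b3.reindex ε
  have hb : ∀ j, b j = ((ε.symm j : B3) : Fin n → L) := by
    intro j
    simp [b, b3]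
  let w : (Fin n → L) → ℕ := fun x => if x ∈ B0 then 0 else if x ∈ B1 then 3 else
    if x ∈ B2 then 4 else 6
  refine ⟨b, fun j => w (b j), ?_, ?_, ?_, ?_, ?_⟩
  · intro j
    simp only [w]
    split_ifs <;> omega
  · intro j hj
    simp only [w] at hj
    split_ifs at hj with h1 h2
    exact hB0 h1
  · intro j hj
    simp only [w] at hj
    split_ifs at hj with h1 h2 h3
    · exact h12 (hB0 h1)
    · exact hB1 h2
    · omega
    · omega
  · intro j hj
    simp only [w] at hj
    split_ifs at hj with h1 h2 h3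
    · exact h23 (h12 (hB0 h1))
    · exact h23 (hB1 h2)
    · exact hB2 h3
    · omega
  · have s1 : ∑ j, w (b j) = ∑ x ∈ B3.toFinset, w x := by
      rw [← Finset.sum_coe_sort B3.toFinset]
      refine Fintype.sum_equiv (ε.symm.trans (Equiv.subtypeEquivRight (by simp))) _ _ ?_
      intro j
      rw [hb]
      rfl
    have s2 : ∀ x ∈ B3.toFinset, w x + (if x ∈ B0.toFinset then 3 else 0) +
        (if x ∈ B1.toFinset then 1 else 0) + (if x ∈ B2.toFinset then 2 else 0) = 6 := by
      intro x _
      simp only [w, Set.mem_toFinset]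
      by_cases h0 : x ∈ B0
      · simp [h0, h01 h0, h12' (h01 h0)]
      · by_cases h1 : x ∈ B1
        · simp [h0, h1, h12' h1]
        · by_cases h2 : x ∈ B2
          · simp [h0, h1, h2]
          · simp [h0, h1, h2]
    have s3 : ∑ x ∈ B3.toFinset, (w x + (if x ∈ B0.toFinset then 3 else 0) +
        (if x ∈ B1.toFinset then 1 else 0) + (if x ∈ B2.toFinset then 2 else 0)) = 6 * n := by
      rw [Finset.sum_congr rfl s2, Finset.sum_const, Set.toFinset_card, c3, smul_eq_mul]
      ring
    rw [Finset.sum_add_distrib, Finset.sum_add_distrib, Finset.sum_add_distrib,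
      Finset.sum_ite_mem, Finset.sum_ite_mem, Finset.sum_ite_mem] at s3
    have i0 : B3.toFinset ∩ B0.toFinset = B0.toFinset := by
      apply Finset.inter_eq_right.2
      rw [Set.toFinset_subset_toFinset]
      exact (h01.trans h12').trans h23'
    have i1 : B3.toFinset ∩ B1.toFinset = B1.toFinset := by
      apply Finset.inter_eq_right.2
      rw [Set.toFinset_subset_toFinset]
      exact h12'.trans h23'
    have i2 : B3.toFinset ∩ B2.toFinset = B2.toFinset := by
      apply Finset.inter_eq_right.2
      rw [Set.toFinset_subset_toFinset]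
      exact h23'
    rw [i0, i1, i2] at s3
    simp only [Finset.sum_const, smul_eq_mul] at s3
    rw [s1, c0, c1, c2]
    omega

section field

variable {n : ℕ} {L : Type*} [Field L] [CharZero L]

/-- Three subspaces which destabilise the form. -/
theorem zero_of_triple (hn : 0 < n) {F : MvPolynomial (Fin n) ℚ} (hF3 : F.IsHomogeneous 3)
    {T : Fin n → Fin n → Fin n → ℚ} (hT : Sy T)
    (hF : F = ∑ i, ∑ j, ∑ k, C (T i j k) * X i * X j * X k)
    (W1 W2 W3 : Submodule L (Fin n → L)) (h12 : W1 ≤ W2) (h23 : W2 ≤ W3)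
    (h1 : ∀ x ∈ W1, ∀ y ∈ W3, ∀ w, B T x y w = 0)
    (h2 : ∀ x ∈ W2, ∀ y ∈ W3, ∀ w ∈ W3, B T x y w = 0)
    (hd : 2 * n < 3 * finrank L W1 + finrank L W2 + 2 * finrank L W3) :
    ∃ x : Fin n → ℚ, x ≠ 0 ∧ eval x F = 0 := by
  obtain ⟨b, v, hv, hv0, hv3, hv4, hsum⟩ := exists_flag_basis3 W1 W2 W3 h12 h23
  refine zero_of_unstable hn hF3 b v 12 ?_ (by omega)
  intro m hm
  obtain ⟨i, j, k, rfl, hB⟩ := support_GG hT hF (fun j i => b j i) m hm
  have e : ∑ l, (Finsupp.single i 1 + Finsupp.single j 1 + Finsupp.single k 1 : Fin n →₀ ℕ) l *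
      v l = v i + v j + v k := by
    classical
    simp [Finsupp.single_apply, add_mul, Finset.sum_add_distrib]
  rw [e]
  by_contra hlt
  push Not at hlt
  -- symmetric formulation
  have key : ∀ i j k : Fin n, v i ≤ v j → v j ≤ v k → v i + v j + v k < 12 →
      B T (b i) (b j) (b k) = 0 := by
    intro i j k hij hjk hlt
    have hi := hv i
    have hj := hv j
    have hk := hv k
    by_cases i0 : v i = 0
    · exact h1 _ (hv0 i i0) _ (hv4 j (by omega)) _
    · by_cases i3 : v i = 3
      · exact h2 _ (hv3 i (by omega)) _ (hv4 j (by omega)) _ (hv4 k (by omega))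
      · omega
  apply hB
  rcases le_total (v i) (v j) with hij | hij <;> rcases le_total (v j) (v k) with hjk | hjk <;>
    rcases le_total (v i) (v k) with hik | hik
  · exact key i j k hij hjk hlt
  · exact key i j k hij hjk hlt
  · rw [B_swap23 hT]; exact key i k j hik hjk (by omega)
  · rw [B_swap23 hT, B_swap12 hT]; exact key k i j hik hij (by omega)
  · rw [B_swap12 hT]; exact key j i k hij hik (by omega)
  · rw [B_swap12 hT, B_swap23 hT]; exact key j k i hjk hik (by omega)
  · rw [B_swap23 hT, B_swap12 hT, B_swap23 hT]; exact key k j i hjk hij (by omega)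
  · rw [B_swap23 hT, B_swap12 hT, B_swap23 hT]; exact key k j i hjk hij (by omega)

/-- the first partial derivatives -/
theorem aeval_pderiv {F : MvPolynomial (Fin n) ℚ}
    {T : Fin n → Fin n → Fin n → ℚ} (hT : Sy T)
    (hF : F = ∑ i, ∑ j, ∑ k, C (T i j k) * X i * X j * X k) (z : Fin n → L) (i : Fin n) :
    aeval z (pderiv i F) = 3 * B T z z (Pi.single i 1) := by
  classical
  have h1 : aeval z (pderiv i F) = B T (Pi.single i 1) z z + B T z (Pi.single i 1) z +
      B T z z (Pi.single i 1) := by
    conv_lhs => rw [hF]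
    unfold B
    simp only [map_sum, ← Finset.sum_add_distrib]
    refine Finset.sum_congr rfl fun a _ => Finset.sum_congr rfl fun b _ =>
      Finset.sum_congr rfl fun c _ => ?_
    have e : ∀ a : Fin n, aeval z (Pi.single (M := fun _ => MvPolynomial (Fin n) ℚ) i 1 a) =
        (Pi.single i 1 : Fin n → L) a := by
      intro a
      by_cases h : a = i
      · subst h; simp
      · simp [Pi.single_eq_of_ne h]
    simp only [Derivation.leibniz, pderiv_C, pderiv_X, smul_eq_mul, map_add, map_mul, aeval_X,
      MvPolynomial.algHom_C, mul_zero, add_zero, map_zero, e]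
    ring
  rw [h1, B_swap12 hT (Pi.single i 1) z z, B_swap23 hT z (Pi.single i 1) z]
  ring

/-- the second partial derivatives -/
theorem aeval_pderiv2 {F : MvPolynomial (Fin n) ℚ}
    {T : Fin n → Fin n → Fin n → ℚ} (hT : Sy T)
    (hF : F = ∑ i, ∑ j, ∑ k, C (T i j k) * X i * X j * X k) (z : Fin n → L) (i j : Fin n) :
    aeval z (pderiv i (pderiv j F)) = 6 * B T z (Pi.single i 1) (Pi.single j 1) := by
  classical
  -- the first derivative as a quadratic form
  have h0 : pderiv j F = ∑ a, ∑ b, C (3 * T a b j) * X a * X b := by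
    have e : ∀ a : Fin n, (Pi.single (M := fun _ => MvPolynomial (Fin n) ℚ) j 1 a) =
        C ((Pi.single j 1 : Fin n → ℚ) a) := by
      intro a
      by_cases h : a = j
      · subst h; simp
      · simp [Pi.single_eq_of_ne h]
    have h1 : pderiv j F = ∑ a, ∑ b, ∑ c, C (T a b c * (Pi.single j 1 : Fin n → ℚ) c) * X a * X b +
        ∑ a, ∑ b, ∑ c, C (T a b c * (Pi.single j 1 : Fin n → ℚ) b) * X a * X c +
        ∑ a, ∑ b, ∑ c, C (T a b c * (Pi.single j 1 : Fin n → ℚ) a) * X b * X c := by
      conv_lhs => rw [hF]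
      simp only [map_sum, ← Finset.sum_add_distrib]
      refine Finset.sum_congr rfl fun a _ => Finset.sum_congr rfl fun b _ =>
        Finset.sum_congr rfl fun c _ => ?_
      simp only [Derivation.leibniz, pderiv_C, pderiv_X, smul_eq_mul, mul_zero, add_zero, e, C_mul]
      ring
    have h2 : ∑ a, ∑ b, ∑ c, C (T a b c * (Pi.single j 1 : Fin n → ℚ) c) * X a * X b =
        ∑ a, ∑ b, (C (T a b j) * X a * X b : MvPolynomial (Fin n) ℚ) := by
      refine Finset.sum_congr rfl fun a _ => Finset.sum_congr rfl fun b _ => ?_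
      rw [Finset.sum_eq_single j]
      · simp
      · intro c _ hc
        simp [Pi.single_eq_of_ne hc]
      · intro h; exact absurd (Finset.mem_univ _) h
    have h3 : ∑ a, ∑ b, ∑ c, C (T a b c * (Pi.single j 1 : Fin n → ℚ) b) * X a * X c =
        ∑ a, ∑ b, (C (T a b j) * X a * X b : MvPolynomial (Fin n) ℚ) := by
      refine Finset.sum_congr rfl fun a _ => ?_
      rw [Finset.sum_eq_single j]
      · refine Finset.sum_congr rfl fun c _ => ?_
        rw [(hT a j c).2]
        simp
      · intro b _ hb
        refine Finset.sum_eq_zero fun c _ => ?_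
        simp [Pi.single_eq_of_ne hb]
      · intro h; exact absurd (Finset.mem_univ _) h
    have h4 : ∑ a, ∑ b, ∑ c, C (T a b c * (Pi.single j 1 : Fin n → ℚ) a) * X b * X c =
        ∑ a, ∑ b, (C (T a b j) * X a * X b : MvPolynomial (Fin n) ℚ) := by
      rw [Finset.sum_eq_single j]
      · refine Finset.sum_congr rfl fun b _ => Finset.sum_congr rfl fun c _ => ?_
        rw [(hT j b c).1, (hT b j c).2]
        simp
      · intro b _ hb
        refine Finset.sum_eq_zero fun c _ => Finset.sum_eq_zero fun d _ => ?_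
        simp [Pi.single_eq_of_ne hb]
      · intro h; exact absurd (Finset.mem_univ _) h
    rw [h1, h2, h3, h4, ← Finset.sum_add_distrib, ← Finset.sum_add_distrib]
    refine Finset.sum_congr rfl fun a _ => ?_
    rw [← Finset.sum_add_distrib, ← Finset.sum_add_distrib]
    refine Finset.sum_congr rfl fun b _ => ?_
    have : (C (3 * T a b j) : MvPolynomial (Fin n) ℚ) = C (T a b j) + C (T a b j) + C (T a b j) := by
      rw [← C_add, ← C_add]; congr 1; ring
    rw [this]
    ring
  have e : ∀ a : Fin n, aeval z (Pi.single (M := fun _ => MvPolynomial (Fin n) ℚ) i 1 a) =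
      (Pi.single i 1 : Fin n → L) a := by
    intro a
    by_cases h : a = i
    · subst h; simp
    · simp [Pi.single_eq_of_ne h]
  have h5 : aeval z (pderiv i (pderiv j F)) =
      ∑ a, ∑ b, algebraMap ℚ L (3 * T a b j) * (z a * (Pi.single i 1 : Fin n → L) b +
        z b * (Pi.single i 1 : Fin n → L) a) := by
    rw [h0]
    simp only [map_sum]
    refine Finset.sum_congr rfl fun a _ => Finset.sum_congr rfl fun b _ => ?_
    simp only [Derivation.leibniz, pderiv_C, pderiv_X, smul_eq_mul, map_add, map_mul, aeval_X,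
      MvPolynomial.algHom_C, mul_zero, add_zero, map_zero, e]
    ring
  have h6 : B T z (Pi.single i 1) (Pi.single j 1) = ∑ a, algebraMap ℚ L (T a i j) * z a := by
    unfold B
    refine Finset.sum_congr rfl fun a _ => ?_
    rw [Finset.sum_eq_single i]
    · rw [Finset.sum_eq_single j]
      · simp
      · intro c _ hc
        simp [Pi.single_eq_of_ne hc]
      · intro h; exact absurd (Finset.mem_univ _) h
    · intro b _ hb
      refine Finset.sum_eq_zero fun c _ => ?_
      simp [Pi.single_eq_of_ne hb]
    · intro h; exact absurd (Finset.mem_univ _) h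
  rw [h5, h6]
  simp only [mul_add, Finset.sum_add_distrib]
  have h7 : ∑ a, ∑ b, algebraMap ℚ L (3 * T a b j) * (z a * (Pi.single i 1 : Fin n → L) b) =
      3 * ∑ a, algebraMap ℚ L (T a i j) * z a := by
    rw [Finset.mul_sum]
    refine Finset.sum_congr rfl fun a _ => ?_
    rw [Finset.sum_eq_single i]
    · simp; ring
    · intro b _ hb
      simp [Pi.single_eq_of_ne hb]
    · intro h; exact absurd (Finset.mem_univ _) h
  have h8 : ∑ a, ∑ b, algebraMap ℚ L (3 * T a b j) * (z b * (Pi.single i 1 : Fin n → L) a) =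
      3 * ∑ a, algebraMap ℚ L (T a i j) * z a := by
    rw [Finset.mul_sum, Finset.sum_eq_single i]
    · refine Finset.sum_congr rfl fun a _ => ?_
      rw [(hT i a j).1]
      simp; ring
    · intro b _ hb
      refine Finset.sum_eq_zero fun c _ => ?_
      simp [Pi.single_eq_of_ne hb]
    · intro h; exact absurd (Finset.mem_univ _) h
  rw [h7, h8]
  ring

end field

end Run7.h151
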