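import Pool.Agent.Run7.h151.Flag3

/-! Cubic forms with a family of singular points of small Hessian rank: main theorem. -/

set_option autoImplicit false
set_option linter.all false

namespace Run7.h151

open MvPolynomial Module

theorem exists_ders {n : ℕ} {L : Type} [Field L] [CharZero L] (z : Fin n → L) (s : ℕ)
    (hs : (s : Cardinal) ≤ Algebra.trdeg ℚ (Algebra.adjoin ℚ (Set.range z))) :
    ∃ D : Fin s → Derivation ℚ L L,
      LinearIndependent L (fun a => (fun i => D a (z i) : Fin n → L)) := by
  classical
  let A := Algebra.adjoin ℚ (Set.range z)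
  let π' : MvPolynomial (Fin n) ℚ →ₐ[ℚ] L := aeval z
  have hr : ∀ p, π' p ∈ A := fun p => by
    change aeval z p ∈ Algebra.adjoin ℚ (Set.range z)
    rw [Algebra.adjoin_range_eq_range_aeval]
    exact ⟨p, rfl⟩
  let π : MvPolynomial (Fin n) ℚ →ₐ[ℚ] A := π'.codRestrict A hr
  have hπ : Function.Surjective π := by
    rintro ⟨x, hx⟩
    have hx' := hx
    change x ∈ Algebra.adjoin ℚ (Set.range z) at hx'
    rw [Algebra.adjoin_range_eq_range_aeval] at hx'
    obtain ⟨p, hp⟩ := hx'
    exact ⟨p, Subtype.ext hp⟩
  obtain ⟨I, x, hx⟩ := exists_isTranscendenceBasis' ℚ A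
  have hcard : (s : Cardinal) ≤ Cardinal.mk I := by
    rw [hx.cardinalMk_eq_trdeg]
    exact hs
  obtain ⟨f⟩ : Nonempty (Fin s ↪ I) := by
    rw [← Cardinal.le_def, Cardinal.mk_fin]
    exact hcard
  obtain ⟨D, hD⟩ := generic_aux π hπ A.val Subtype.val_injective s (x ∘ f)
    (hx.1.comp f f.injective)
  refine ⟨D, ?_⟩
  have : ∀ i, A.val (π (X i)) = z i := by
    intro i
    change π' (X i) = z i
    exact aeval_X z i
  simpa only [this] using hD

/-- **Cubic forms with a family of singular points of small Hessian rank.** -/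
theorem zero_of_hess {n : ℕ} {F : MvPolynomial (Fin n) ℚ} (hF3 : F.IsHomogeneous 3)
    {L : Type} [Field L] [CharZero L] (z : Fin n → L) (hz0 : z ≠ 0)
    (hz : ∀ i, aeval z (pderiv i F) = 0) (s : ℕ)
    (hs : (s : Cardinal) ≤ Algebra.trdeg ℚ (Algebra.adjoin ℚ (Set.range z)))
    (hd : 2 * (Matrix.of fun i j => aeval z (pderiv i (pderiv j F))).rank < s + 3) :
    ∃ x : Fin n → ℚ, x ≠ 0 ∧ eval x F = 0 := by
  classical
  have hn : 0 < n := by
    rcases Nat.eq_zero_or_pos n with h | h
    · subst h
      exact absurd (Subsingleton.elim z 0) hz0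
    · exact h
  obtain ⟨T, hT, hF⟩ := exists_sym hF3
  obtain ⟨D, hli⟩ := exists_ders z s hs
  have hbasis : ∀ w : Fin n → L, w = ∑ i, w i • (Pi.single i 1 : Fin n → L) := by
    intro w
    funext j
    simp [Finset.sum_apply, Pi.single_apply]
  have hzz : ∀ w, B T z z w = 0 := by
    intro w
    have h1 : ∀ i, B T z z (Pi.single i 1) = 0 := by
      intro i
      have h2 := aeval_pderiv hT hF z i
      rw [hz i] at h2
      have h3 : (3 : L) ≠ 0 := by norm_num
      exact (mul_eq_zero.1 h2.symm).resolve_left h3
    rw [hbasis w, B_sum3]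
    exact Finset.sum_eq_zero fun i _ => by rw [h1, mul_zero]
  have hzD : ∀ (E : Derivation ℚ L L) w, B T z (fun i => E (z i)) w = 0 := by
    intro E w
    have h1 := der_B (T := T) E z z w
    rw [hzz, hzz, map_zero, B_swap12 hT (fun i => E (z i)) z w] at h1
    have h2 : (2 : L) * B T z (fun i => E (z i)) w = 0 := by
      linear_combination -h1
    exact (mul_eq_zero.1 h2).resolve_left two_ne_zero
  -- the kernel of the Hessian matrix
  set H : Matrix (Fin n) (Fin n) L := Matrix.of fun i j => aeval z (pderiv i (pderiv j F)) with hH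
  let W3 : Submodule L (Fin n → L) := LinearMap.ker H.mulVecLin
  have hW3 : ∀ y, y ∈ W3 ↔ ∀ w, B T z y w = 0 := by
    intro y
    have e : ∀ i, (H.mulVec y) i = 6 * B T z (Pi.single i 1) y := by
      intro i
      rw [Matrix.mulVec, dotProduct]
      have h1 : B T z (Pi.single i 1) y = ∑ j, y j * B T z (Pi.single i 1) (Pi.single j 1) := by
        conv_lhs => rw [hbasis y]
        rw [B_sum3]
      rw [h1, Finset.mul_sum]
      refine Finset.sum_congr rfl fun j _ => ?_
      rw [hH, Matrix.of_apply, aeval_pderiv2 hT hF]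
      ring
    constructor
    · intro hy w
      have h1 : H.mulVec y = 0 := hy
      have h2 : ∀ i, B T z (Pi.single i 1) y = 0 := by
        intro i
        have h3 := e i
        rw [h1] at h3
        have h4 : (6 : L) ≠ 0 := by norm_num
        exact (mul_eq_zero.1 h3.symm).resolve_left h4
      rw [hbasis w, B_sum3]
      refine Finset.sum_eq_zero fun i _ => ?_
      rw [B_swap23 hT, h2, mul_zero]
    · intro hy
      change H.mulVec y = 0
      funext i
      rw [e, B_swap23 hT, hy, mul_zero]
      rfl
  have hrank : finrank L W3 + H.rank = n := by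
    have := LinearMap.finrank_range_add_finrank_ker H.mulVecLin
    rw [Module.finrank_fin_fun] at this
    have h2 : H.rank = finrank L (LinearMap.range H.mulVecLin) := rfl
    change finrank L (LinearMap.ker H.mulVecLin) + H.rank = n
    omega
  let W1 : Submodule L (Fin n → L) := Submodule.span L {z}
  let G : Set (Fin n → L) := insert z (Set.range fun a => (fun i => D a (z i) : Fin n → L))
  let W2 : Submodule L (Fin n → L) := Submodule.span L G
  have hG : ∀ x ∈ G, x = z ∨ ∃ E : Derivation ℚ L L, x = fun i => E (z i) := by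
    rintro x (rfl | ⟨a, rfl⟩)
    · exact Or.inl rfl
    · exact Or.inr ⟨D a, rfl⟩
  have hBz : ∀ x ∈ G, ∀ w, B T z x w = 0 := by
    intro x hx w
    rcases hG x hx with rfl | ⟨E, rfl⟩
    · exact hzz w
    · exact hzD E w
  have hGN : ∀ x ∈ G, ∀ y ∈ W3, ∀ w ∈ W3, B T x y w = 0 := by
    intro x hx y hy w hw
    rcases hG x hx with rfl | ⟨E, rfl⟩
    · exact (hW3 y).1 hy w
    · have h1 := der_B (T := T) E z y w
      rw [(hW3 y).1 hy, (hW3 y).1 hy, map_zero, B_swap23 hT z (fun i => E (y i)) w,
        (hW3 w).1 hw] at h1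
      linear_combination -h1
  refine zero_of_triple hn hF3 hT hF W1 W2 W3 ?_ ?_ ?_ ?_ ?_
  · exact Submodule.span_mono (Set.singleton_subset_iff.2 (Set.mem_insert _ _))
  · rw [Submodule.span_le]
    intro x hx
    exact (hW3 x).2 (hBz x hx)
  · intro x hx y hy w
    obtain ⟨c, rfl⟩ := Submodule.mem_span_singleton.1 hx
    have h2 := B_sum1 hT y w (fun _ : Fin 1 => c) (fun _ => z)
    simp only [Finset.univ_unique, Finset.sum_singleton] at h2
    rw [h2, (hW3 y).1 hy w, mul_zero]
  · intro x hx y hy w hw
    have : W2 ≤ LinearMap.ker (Bl T y w) := by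
      rw [Submodule.span_le]
      intro g hg
      change B T y w g = 0
      rw [B_swap23 hT, B_swap12 hT]
      exact hGN g hg y hy w hw
    have h3 : B T y w x = 0 := this hx
    rw [B_swap12 hT, B_swap23 hT]
    exact h3
  · have hw1 : finrank L W1 = 1 := finrank_span_singleton hz0
    have hw2 : s ≤ finrank L W2 := by
      have h1 : finrank L (Submodule.span L (Set.range fun a => (fun i => D a (z i) : Fin n → L)))
          = s := by
        rw [finrank_span_eq_card hli, Fintype.card_fin]
      have h2 : Submodule.span L (Set.range fun a => (fun i => D a (z i) : Fin n → L)) ≤ W2 :=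
        Submodule.span_mono (Set.subset_insert _ _)
      have := Submodule.finrank_mono h2
      omega
    omega

end Run7.h151
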