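import Pool.Agent.Run7.h151.Flag
import Pool.Agent.Run7.h131.LL.DerExt
import Pool.Agent.Helper834.EC.Dim1

/-! Cubic forms with a large singular locus. -/

set_option autoImplicit false
set_option linter.all false

namespace Run7.h151

open MvPolynomial Module

section tri

variable {n : ℕ} {L : Type*} [CommRing L] [Algebra ℚ L]

/-- the trilinear form -/
noncomputable def B (T : Fin n → Fin n → Fin n → ℚ) (x y w : Fin n → L) : L :=
  ∑ i, ∑ j, ∑ k, algebraMap ℚ L (T i j k) * x i * y j * w k

/-- symmetric tensors -/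
def Sy (T : Fin n → Fin n → Fin n → ℚ) : Prop := ∀ i j k, T i j k = T j i k ∧ T i j k = T i k j

theorem B_swap12 {T : Fin n → Fin n → Fin n → ℚ} (hT : Sy T) (x y w : Fin n → L) :
    B T x y w = B T y x w := by
  unfold B
  rw [Finset.sum_comm]
  refine Finset.sum_congr rfl fun i _ => Finset.sum_congr rfl fun j _ =>
    Finset.sum_congr rfl fun k _ => ?_
  rw [(hT j i k).1]
  ring

theorem B_swap23 {T : Fin n → Fin n → Fin n → ℚ} (hT : Sy T) (x y w : Fin n → L) :
    B T x y w = B T x w y := by
  unfold B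
  refine Finset.sum_congr rfl fun i _ => ?_
  rw [Finset.sum_comm]
  refine Finset.sum_congr rfl fun j _ => Finset.sum_congr rfl fun k _ => ?_
  rw [(hT i k j).2]
  ring

/-- linearity in the last argument -/
noncomputable def Bl (T : Fin n → Fin n → Fin n → ℚ) (x y : Fin n → L) : (Fin n → L) →ₗ[L] L where
  toFun w := B T x y w
  map_add' w w' := by
    simp only [B, Pi.add_apply, mul_add, Finset.sum_add_distrib]
  map_smul' c w := by
    simp only [B, Pi.smul_apply, smul_eq_mul, RingHom.id_apply, Finset.mul_sum]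
    refine Finset.sum_congr rfl fun i _ => Finset.sum_congr rfl fun j _ =>
      Finset.sum_congr rfl fun k _ => ?_
    ring

theorem exists_sym {F : MvPolynomial (Fin n) ℚ} (hF : F.IsHomogeneous 3) :
    ∃ T : Fin n → Fin n → Fin n → ℚ, Sy T ∧
      F = ∑ i, ∑ j, ∑ k, C (T i j k) * X i * X j * X k := by
  obtain ⟨t, ht⟩ := isTensor hF
  refine ⟨fun i j k => (t i j k + t i k j + t j i k + t j k i + t k i j + t k j i) / 6, ?_, ?_⟩
  · intro i j k
    constructor <;> ring
  · have e1 : ∀ f : Fin n → Fin n → Fin n → MvPolynomial (Fin n) ℚ,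
        ∑ i, ∑ j, ∑ k, f i j k = ∑ i, ∑ j, ∑ k, f i k j := fun f => by
      refine Finset.sum_congr rfl fun i _ => ?_
      rw [Finset.sum_comm]
    have e2 : ∀ f : Fin n → Fin n → Fin n → MvPolynomial (Fin n) ℚ,
        ∑ i, ∑ j, ∑ k, f i j k = ∑ i, ∑ j, ∑ k, f j i k := fun f => by
      rw [Finset.sum_comm]
    let g : Fin n → Fin n → Fin n → MvPolynomial (Fin n) ℚ :=
      fun i j k => C (t i j k / 6) * X i * X j * X k
    have h6 : F = 6 * ∑ i, ∑ j, ∑ k, g i j k := by
      rw [ht]
      simp only [Finset.mul_sum, g]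
      refine Finset.sum_congr rfl fun i _ => Finset.sum_congr rfl fun j _ =>
        Finset.sum_congr rfl fun k _ => ?_
      have : (C (t i j k) : MvPolynomial (Fin n) ℚ) = 6 * C (t i j k / 6) := by
        have h7 : (6 : MvPolynomial (Fin n) ℚ) = C 6 := (map_ofNat C 6).symm
        rw [h7, ← C_mul]
        congr 1
        ring
      rw [this]
      ring
    have r1 : ∑ i, ∑ j, ∑ k, g i k j = ∑ i, ∑ j, ∑ k, g i j k := (e1 g).symm
    have r2 : ∑ i, ∑ j, ∑ k, g j i k = ∑ i, ∑ j, ∑ k, g i j k := (e2 g).symm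
    have r3 : ∑ i, ∑ j, ∑ k, g j k i = ∑ i, ∑ j, ∑ k, g i j k := by
      rw [e2 (fun i j k => g j k i), ← r1]
    have r4 : ∑ i, ∑ j, ∑ k, g k i j = ∑ i, ∑ j, ∑ k, g i j k := by
      rw [e1 (fun i j k => g k i j), ← r2]
    have r5 : ∑ i, ∑ j, ∑ k, g k j i = ∑ i, ∑ j, ∑ k, g i j k := by
      rw [e2 (fun i j k => g k j i), ← r4]
    have h7 : F = ∑ i, ∑ j, ∑ k, g i j k + ∑ i, ∑ j, ∑ k, g i k j + ∑ i, ∑ j, ∑ k, g j i k +
        ∑ i, ∑ j, ∑ k, g j k i + ∑ i, ∑ j, ∑ k, g k i j + ∑ i, ∑ j, ∑ k, g k j i := by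
      rw [r1, r2, r3, r4, r5, h6]
      ring
    rw [h7]
    simp only [← Finset.sum_add_distrib]
    refine Finset.sum_congr rfl fun i _ => Finset.sum_congr rfl fun j _ =>
      Finset.sum_congr rfl fun k _ => ?_
    simp only [g]
    have h8 : (C ((t i j k + t i k j + t j i k + t j k i + t k i j + t k j i) / 6) :
        MvPolynomial (Fin n) ℚ) = C (t i j k / 6) + C (t i k j / 6) + C (t j i k / 6) +
          C (t j k i / 6) + C (t k i j / 6) + C (t k j i / 6) := by
      simp only [← C_add]
      congr 1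
      ring
    rw [h8]
    ring

theorem B_sum3 (T : Fin n → Fin n → Fin n → ℚ) (x y : Fin n → L) {ι : Type*} [Fintype ι]
    (c : ι → L) (w : ι → Fin n → L) :
    B T x y (∑ k, c k • w k) = ∑ k, c k * B T x y (w k) := by
  have := map_sum (Bl T x y) (fun k => c k • w k) Finset.univ
  simp only [map_smul, smul_eq_mul] at this
  exact this

theorem B_sum2 {T : Fin n → Fin n → Fin n → ℚ} (hT : Sy T) (x w : Fin n → L) {ι : Type*}
    [Fintype ι] (c : ι → L) (y : ι → Fin n → L) :
    B T x (∑ k, c k • y k) w = ∑ k, c k * B T x (y k) w := by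
  rw [B_swap23 hT, B_sum3]
  refine Finset.sum_congr rfl fun k _ => ?_
  rw [B_swap23 hT]

theorem B_sum1 {T : Fin n → Fin n → Fin n → ℚ} (hT : Sy T) (y w : Fin n → L) {ι : Type*}
    [Fintype ι] (c : ι → L) (x : ι → Fin n → L) :
    B T (∑ k, c k • x k) y w = ∑ k, c k * B T (x k) y w := by
  rw [B_swap12 hT, B_sum2 hT]
  refine Finset.sum_congr rfl fun k _ => ?_
  rw [B_swap12 hT]

theorem B_C (T : Fin n → Fin n → Fin n → ℚ) (x y w : Fin n → L) :
    B T (fun i => (C (x i) : MvPolynomial (Fin n) L)) (fun i => C (y i)) (fun i => C (w i)) =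
      C (B T x y w) := by
  simp only [B, map_sum, map_mul]
  refine Finset.sum_congr rfl fun i _ => Finset.sum_congr rfl fun j _ =>
    Finset.sum_congr rfl fun k _ => ?_
  rw [MvPolynomial.algebraMap_apply]

theorem aeval_eq_B {F : MvPolynomial (Fin n) ℚ} {T : Fin n → Fin n → Fin n → ℚ}
    (hF : F = ∑ i, ∑ j, ∑ k, C (T i j k) * X i * X j * X k) (x : Fin n → L) :
    aeval x F = B T x x x := by
  rw [hF]
  simp only [B, map_sum, map_mul, aeval_X, MvPolynomial.algHom_C]

/-- The coefficients of the form in other coordinates. -/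
theorem support_GG {F : MvPolynomial (Fin n) ℚ} {T : Fin n → Fin n → Fin n → ℚ} (hT : Sy T)
    (hF : F = ∑ i, ∑ j, ∑ k, C (T i j k) * X i * X j * X k)
    (b : Fin n → Fin n → L) (m : Fin n →₀ ℕ) (hm : m ∈ (GG F b).support) :
    ∃ i j k, m = Finsupp.single i 1 + Finsupp.single j 1 + Finsupp.single k 1 ∧
      B T (b i) (b j) (b k) ≠ 0 := by
  classical
  have e1 : GG F b = ∑ i, ∑ j, ∑ k, C (B T (b i) (b j) (b k)) * X i * X j * X k := by
    unfold GG
    rw [aeval_eq_B hF]
    have e3 : (fun i => ∑ j, C (b j i) * X j : Fin n → MvPolynomial (Fin n) L) =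
        ∑ j, (X j : MvPolynomial (Fin n) L) • fun i => C (b j i) := by
      funext i
      rw [Finset.sum_apply]
      refine Finset.sum_congr rfl fun j _ => ?_
      rw [Pi.smul_apply, smul_eq_mul, mul_comm]
    rw [e3, B_sum1 hT]
    refine Finset.sum_congr rfl fun i _ => ?_
    rw [B_sum2 hT, Finset.mul_sum]
    refine Finset.sum_congr rfl fun j _ => ?_
    rw [B_sum3, Finset.mul_sum, Finset.mul_sum]
    refine Finset.sum_congr rfl fun k _ => ?_
    rw [B_C]
    ring
  by_contra hne
  push Not at hne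
  rw [MvPolynomial.mem_support_iff] at hm
  apply hm
  rw [e1]
  simp only [MvPolynomial.coeff_sum]
  refine Finset.sum_eq_zero fun i _ => Finset.sum_eq_zero fun j _ =>
    Finset.sum_eq_zero fun k _ => ?_
  have e2 : (C (B T (b i) (b j) (b k)) * X i * X j * X k : MvPolynomial (Fin n) L) =
      monomial (Finsupp.single i 1 + Finsupp.single j 1 + Finsupp.single k 1)
        (B T (b i) (b j) (b k)) := by
    unfold MvPolynomial.X
    rw [MvPolynomial.C_apply, MvPolynomial.monomial_mul, MvPolynomial.monomial_mul,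
      MvPolynomial.monomial_mul, mul_one, mul_one, mul_one, zero_add]
  rw [e2, MvPolynomial.coeff_monomial]
  split_ifs with h
  · exact hne i j k h.symm
  · rfl

end tri

section field

variable {n : ℕ} {L : Type*} [Field L] [CharZero L]

/-- Two subspaces which destabilise the form. -/
theorem zero_of_pair (hn : 0 < n) {F : MvPolynomial (Fin n) ℚ} (hF3 : F.IsHomogeneous 3)
    {T : Fin n → Fin n → Fin n → ℚ} (hT : Sy T)
    (hF : F = ∑ i, ∑ j, ∑ k, C (T i j k) * X i * X j * X k)
    (W1 W2 : Submodule L (Fin n → L)) (h12 : W1 ≤ W2)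
    (h1 : ∀ x ∈ W1, ∀ y ∈ W2, ∀ w, B T x y w = 0)
    (h2 : ∀ x ∈ W2, ∀ y ∈ W2, ∀ w ∈ W2, B T x y w = 0)
    (hd : 2 * n < 3 * (finrank L W1 + finrank L W2)) :
    ∃ x : Fin n → ℚ, x ≠ 0 ∧ eval x F = 0 := by
  obtain ⟨b, v, hv2, hv0, hv1, hsum⟩ := exists_flag_basis W1 W2 h12
  refine zero_of_unstable hn hF3 b v 4 ?_ (by omega)
  intro m hm
  obtain ⟨i, j, k, rfl, hB⟩ := support_GG hT hF (fun j i => b j i) m hm
  have e : ∑ l, (Finsupp.single i 1 + Finsupp.single j 1 + Finsupp.single k 1 : Fin n →₀ ℕ) l *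
      v l = v i + v j + v k := by
    classical
    simp [Finsupp.single_apply, add_mul, Finset.sum_add_distrib]
  rw [e]
  by_contra hlt
  push Not at hlt
  apply hB
  have hi := hv2 i
  have hj := hv2 j
  have hk := hv2 k
  -- the cases
  by_cases i0 : v i = 0
  · by_cases j1 : v j ≤ 1
    · exact h1 _ (hv0 i i0) _ (hv1 j j1) _
    · have k1 : v k ≤ 1 := by omega
      rw [B_swap23 hT]
      exact h1 _ (hv0 i i0) _ (hv1 k k1) _
  · by_cases j0 : v j = 0
    · rw [B_swap12 hT]
      by_cases i1 : v i ≤ 1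
      · exact h1 _ (hv0 j j0) _ (hv1 i i1) _
      · have k1 : v k ≤ 1 := by omega
        rw [B_swap23 hT]
        exact h1 _ (hv0 j j0) _ (hv1 k k1) _
    · by_cases k0 : v k = 0
      · rw [B_swap23 hT, B_swap12 hT]
        by_cases i1 : v i ≤ 1
        · exact h1 _ (hv0 k k0) _ (hv1 i i1) _
        · have j1 : v j ≤ 1 := by omega
          rw [B_swap23 hT]
          exact h1 _ (hv0 k k0) _ (hv1 j j1) _
      · exact h2 _ (hv1 i (by omega)) _ (hv1 j (by omega)) _ (hv1 k (by omega))

/-- A derivation applied to the trilinear form. -/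
theorem der_B {T : Fin n → Fin n → Fin n → ℚ} (D : Derivation ℚ L L) (x y w : Fin n → L) :
    D (B T x y w) = B T (fun i => D (x i)) y w + B T x (fun i => D (y i)) w +
      B T x y (fun i => D (w i)) := by
  unfold B
  simp only [map_sum, ← Finset.sum_add_distrib]
  refine Finset.sum_congr rfl fun i _ => Finset.sum_congr rfl fun j _ =>
    Finset.sum_congr rfl fun k _ => ?_
  simp only [Derivation.leibniz, Derivation.map_algebraMap, smul_eq_mul]
  ring

/-- **Cubic forms with a generic singular zero of large transcendence degree.** -/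
theorem zero_of_singular (hn : 0 < n) {F : MvPolynomial (Fin n) ℚ} (hF3 : F.IsHomogeneous 3)
    (z : Fin n → L) (hz0 : z ≠ 0) (hz : ∀ i, aeval z (pderiv i F) = 0) (s : ℕ)
    (D : Fin s → Derivation ℚ L L)
    (hli : LinearIndependent L (fun a => (fun i => D a (z i) : Fin n → L)))
    (hd : 2 * n < 3 * (s + 1)) :
    ∃ x : Fin n → ℚ, x ≠ 0 ∧ eval x F = 0 := by
  classical
  obtain ⟨T, hT, hF⟩ := exists_sym hF3
  -- the partial derivatives
  have hp : ∀ i, aeval z (pderiv i F) = 3 * B T z z (Pi.single i 1) := by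
    intro i
    have h1 : aeval z (pderiv i F) = B T (Pi.single i 1) z z + B T z (Pi.single i 1) z +
        B T z z (Pi.single i 1) := by
      conv_lhs => rw [hF]
      unfold B
      simp only [map_sum, ← Finset.sum_add_distrib]
      refine Finset.sum_congr rfl fun a _ => Finset.sum_congr rfl fun b _ =>
        Finset.sum_congr rfl fun c _ => ?_
      have e : ∀ a : Fin n, aeval z (Pi.single (M := fun _ => MvPolynomial (Fin n) ℚ) i 1 a) =
          (Pi.single i 1 : Fin n → L) a := by
        intro a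
        by_cases h : a = i
        · subst h; simp
        · simp [Pi.single_eq_of_ne h]
      simp only [Derivation.leibniz, pderiv_C, pderiv_X, smul_eq_mul, map_add, map_mul, aeval_X,
        MvPolynomial.algHom_C, mul_zero, add_zero, map_zero, e]
      ring
    rw [h1, B_swap12 hT (Pi.single i 1) z z, B_swap23 hT z (Pi.single i 1) z]
    ring
  have hzz : ∀ w, B T z z w = 0 := by
    intro w
    have h1 : ∀ i, B T z z (Pi.single i 1) = 0 := by
      intro i
      have h2 := hp i
      rw [hz i] at h2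
      have h3 : (3 : L) ≠ 0 := by norm_num
      exact (mul_eq_zero.1 h2.symm).resolve_left h3
    have h4 : w = ∑ i, w i • (Pi.single i 1 : Fin n → L) := by
      funext j
      simp [Finset.sum_apply, Pi.single_apply]
    rw [h4, B_sum3]
    exact Finset.sum_eq_zero fun i _ => by rw [h1, mul_zero]
  -- first derivatives
  have hzD : ∀ (E : Derivation ℚ L L) w, B T z (fun i => E (z i)) w = 0 := by
    intro E w
    have h1 := der_B (T := T) E z z w
    rw [hzz, hzz, map_zero, B_swap12 hT (fun i => E (z i)) z w] at h1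
    have h2 : (2 : L) * B T z (fun i => E (z i)) w = 0 := by
      linear_combination -h1
    exact (mul_eq_zero.1 h2).resolve_left two_ne_zero
  have hDDD : ∀ (E E' E'' : Derivation ℚ L L),
      B T (fun i => E (z i)) (fun i => E' (z i)) (fun i => E'' (z i)) = 0 := by
    intro E E' E''
    have h1 := der_B (T := T) E z (fun i => E' (z i)) (fun i => E'' (z i))
    rw [hzD, hzD, map_zero] at h1
    have h2 : B T z (fun i => E (E' (z i))) (fun i => E'' (z i)) = 0 := by
      rw [B_swap23 hT]
      exact hzD _ _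
    rw [h2] at h1
    linear_combination -h1
  -- the two subspaces
  let W1 : Submodule L (Fin n → L) := Submodule.span L {z}
  let G : Set (Fin n → L) := insert z (Set.range fun a => (fun i => D a (z i) : Fin n → L))
  let W2 : Submodule L (Fin n → L) := Submodule.span L G
  have hG : ∀ x ∈ G, x = z ∨ ∃ E : Derivation ℚ L L, x = fun i => E (z i) := by
    rintro x (rfl | ⟨a, rfl⟩)
    · exact Or.inl rfl
    · exact Or.inr ⟨D a, rfl⟩
  have hBz : ∀ x ∈ G, ∀ w, B T z x w = 0 := by
    intro x hx w
    rcases hG x hx with rfl | ⟨E, rfl⟩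
    · exact hzz w
    · exact hzD E w
  have hBG : ∀ x ∈ G, ∀ y ∈ G, ∀ w ∈ G, B T x y w = 0 := by
    intro x hx y hy w hw
    rcases hG x hx with rfl | ⟨E, rfl⟩
    · exact hBz y hy w
    · rcases hG y hy with rfl | ⟨E', rfl⟩
      · rw [B_swap12 hT]
        exact hBz _ hx w
      · rcases hG w hw with rfl | ⟨E'', rfl⟩
        · rw [B_swap23 hT, B_swap12 hT]
          exact hBz _ hx _
        · exact hDDD E E' E''
  refine zero_of_pair hn hF3 hT hF W1 W2 ?_ ?_ ?_ ?_
  · exact Submodule.span_mono (Set.singleton_subset_iff.2 (Set.mem_insert _ _))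
  · intro x hx y hy w
    obtain ⟨c, rfl⟩ := Submodule.mem_span_singleton.1 hx
    have h1 : B T z y w = 0 := by
      rw [B_swap23 hT]
      have : W2 ≤ LinearMap.ker (Bl T z w) := by
        rw [Submodule.span_le]
        intro g hg
        change B T z w g = 0
        rw [B_swap23 hT]
        exact hBz g hg w
      exact this hy
    have h2 := B_sum1 hT y w (fun _ : Fin 1 => c) (fun _ => z)
    simp only [Finset.univ_unique, Finset.sum_singleton] at h2
    rw [h2, h1, mul_zero]
  · have s1 : ∀ x ∈ G, ∀ y ∈ G, ∀ w ∈ W2, B T x y w = 0 := by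
      intro x hx y hy w hw
      have : W2 ≤ LinearMap.ker (Bl T x y) := by
        rw [Submodule.span_le]
        intro g hg
        exact hBG x hx y hy g hg
      exact this hw
    have s2 : ∀ x ∈ G, ∀ y ∈ W2, ∀ w ∈ W2, B T x y w = 0 := by
      intro x hx y hy w hw
      have : W2 ≤ LinearMap.ker (Bl T x w) := by
        rw [Submodule.span_le]
        intro g hg
        change B T x w g = 0
        rw [B_swap23 hT]
        exact s1 x hx g hg w hw
      rw [B_swap23 hT]
      exact this hy
    intro x hx y hy w hw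
    have : W2 ≤ LinearMap.ker (Bl T y w) := by
      rw [Submodule.span_le]
      intro g hg
      change B T y w g = 0
      rw [B_swap23 hT, B_swap12 hT]
      exact s2 g hg y hy w hw
    have h3 : B T y w x = 0 := this hx
    rw [B_swap12 hT, B_swap23 hT]
    exact h3
  · have hw1 : finrank L W1 = 1 := finrank_span_singleton hz0
    have hw2 : s ≤ finrank L W2 := by
      have h1 : finrank L (Submodule.span L (Set.range fun a => (fun i => D a (z i) : Fin n → L)))
          = s := by
        rw [finrank_span_eq_card hli, Fintype.card_fin]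
      have h2 : Submodule.span L (Set.range fun a => (fun i => D a (z i) : Fin n → L)) ≤ W2 :=
        Submodule.span_mono (Set.subset_insert _ _)
      have := Submodule.finrank_mono h2
      omega
    omega

end field

end Run7.h151
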